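import Pool.Agent.helper7.EP.SpecH
import Pool.Agent.helper95.EP.ETT
import Pool.Agent.helper40.EP.ETA
import Pool.Agent.helper99.EP.HT
import Pool.Agent.helper89.EP.HS
import Pool.Agent.helper43.EP.EVM
import Pool.Agent.helper65.EP.EVE
import Pool.Agent.helper24.EP.HQ
import Pool.Agent.helper40.EP.HM
import Pool.Agent.helper91.EP.INT4
import Pool.Agent.helper95.EP.CM2
import Pool.Agent.helper59.EP.WM
import Pool.Agent.helper49.EP.TW1
import Pool.Agent.helper50.EP.TW
import Pool.Agent.helper99.EP.JREC
import Pool.Agent.helper50.EP.JW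
import Pool.Agent.helper21.EP.NEG
import Pool.Agent.helper65.EP.PA
import Pool.Agent.helper41.EP.WA
import Pool.Agent.helper90.EP.JN
import Pool.Agent.helper41.EP.ID

/-!
# Project ep:, assembly of the Hecke part
-/

set_option autoImplicit false

namespace Pool.Agent.EP

theorem all_HT : HT_stmt := HT ETT
theorem all_HS : HS_stmt := HS (ETA ETT)
theorem all_HQ : HQ_stmt := HQ EVM EVE
theorem all_HM : HM_stmt := HM all_HT all_HS all_HQ
theorem all_TW1 : TW1_stmt := TW1 all_HM INT4 CM2 WM
theorem all_TW : TW_stmt := TW all_TW1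
theorem all_JW : JW_stmt := JW all_TW JREC WM
theorem all_NEG : NEG_stmt := NEG WM
theorem all_WA : WA_stmt := WA PA WM
theorem all_ID : ID_stmt := ID all_JW all_NEG all_WA JN

end Pool.Agent.EP
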