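import Pool.Agent.helper7.EP.SpecH

/-!
# Project ep:, part A (Theorem A: many even values below every X)

`A = 2^a`. The multipliers `k` are `1 mod 6` and at most `12 A`; the primes `p` are in `(y, 2y]`, in the class `3 - A mod 24`.
`ws (k * 2^a)` is the set of the odd `w` with `3 w^2 < k A`. Complete proofs in the docstrings.
-/

set_option autoImplicit false

open Finset PowerSeries

noncomputable section

namespace Pool.Agent.EP

/-! ### Definitions -/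

/-- `eta^8` modulo 2: the series `x E(x^24)`. -/
def vvx : KK :=
  HahnSeries.single (1 : ℤ) (1 : ZMod 2) *
    HahnSeries.ofPowerSeries ℤ (ZMod 2) (PowerSeries.expand 24 (by norm_num) helper81.EE)

/-- The numbers `u` of the left side of the identity: `u` odd, `A ∣ M - 3 u^2`, `u ≤ M + k A`. -/
def us (a k : ℕ) (M : ℤ) : Finset ℕ :=
  {u ∈ range ((M + k * 2 ^ a).toNat + 1) | u % 2 = 1 ∧ (2 ^ a : ℤ) ∣ M - 3 * (u : ℤ) ^ 2}

/-- The class `3 - 2^a` modulo 24. -/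
def tcl (a : ℕ) : ℕ := (3 + 23 * 2 ^ a) % 24

/-- The multipliers `k ≤ 12 * 2^a`, `k = 1 mod 6`, with an odd number of odd `w`, `3 w^2 < k 2^a`. -/
def Ks (a : ℕ) : Finset ℕ := {k ∈ range (12 * 2 ^ a + 1) | k % 6 = 1 ∧ #(ws (k * 2 ^ a)) % 2 = 1}

/-- The primes of `(y, 2y]` in the class `tcl a` modulo 24. -/
def Pt (a y : ℕ) : Finset ℕ := {p ∈ Ioc y (2 * y) | p.Prime ∧ p % 24 = tcl a % 24}

open Classical in
/-- Exceptional primes of the first type. -/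
def ExA (a y : ℕ) : Finset ℕ :=
  {p ∈ Pt a y | ∃ u : ℕ, u % 2 = 1 ∧ 3 * u ^ 2 < p ∧ 2 ^ a ∣ p - 3 * u ^ 2}

open Classical in
/-- Exceptional primes of the second type. -/
def ExB (a y k : ℕ) : Finset ℕ := {p ∈ Pt a y | ∃ u : ℕ, 3 * u ^ 2 = p + k * 2 ^ a}

open Classical in
/-- Exceptional primes of the third type. -/
def ExP (a y k : ℕ) : Finset ℕ := {p ∈ Pt a y | ∃ w ∈ ws (k * 2 ^ a), p ∣ k * 2 ^ a - 3 * w ^ 2}

open Classical in
/-- The `k` for which `j` is of the form `k A - 3 w^2`. -/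
def MuS (a j : ℕ) : Finset ℕ :=
  {k ∈ Ks a | ∃ w : ℕ, w % 2 = 1 ∧ 3 * w ^ 2 < k * 2 ^ a ∧ k * 2 ^ a - 3 * w ^ 2 = j}

open Classical in
/-- The pairs which lead to `s`. -/
def FiS (a y s : ℕ) : Finset (ℕ × ℕ) :=
  {x ∈ Ks a ×ˢ Pt a y | ∃ w ∈ ws (x.1 * 2 ^ a), (x.1 * 2 ^ a - 3 * w ^ 2) * x.2 + 1 = 24 * s}

open Classical in
/-- The indicator of the numbers `3 u^2`, `u` odd. -/
def tht (N : ℤ) : ZMod 2 := if ∃ u : ℕ, u % 2 = 1 ∧ N = 3 * (u : ℤ) ^ 2 then 1 else 0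

/-! ### The identity -/

/-- **FRO** (medium, 60 lines). The `2^a`-th power of a Laurent series over the field with two elements.
Proof. Induction on `a`, so it suffices to treat `f^2` (`f^(2^(a+1)) = (f^(2^a))^2`; `2^(a+1) ∣ N` iff `2 ∣ N` and `2^a ∣ N/2`).
`f^2`: write `f = single m 1 * ofPowerSeries φ` (`LaurentSeries.single_order_mul_powerSeriesPart` or the like); then `f^2 = single (2m) 1 *
ofPowerSeries (φ^2)`, `φ^2 = expand 2 φ` (`helper12.PE.pow_eq_expand` with exponent 1), coefficients of `expand`. Or directly: the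
coefficient of `f * f` at `N` is a sum over the pairs `(i,j)`, `i+j = N`, which is invariant under the swap, so only `i = j` remains
(`Finset.sum_involution`), and `c^2 = c` in `ZMod 2`. -/
def FRO_stmt : Prop := ∀ (a : ℕ) (f : KK) (N : ℤ),
  (f ^ (2 ^ a)).coeff N = if (2 ^ a : ℤ) ∣ N then f.coeff (N / 2 ^ a) else 0

/-- **VTH** (short, 50 lines). The cube of `vvx`. Proof: `vvx^3 = single 3 1 * ofPowerSeries (expand 24 (EE^3))` (ring homomorphisms).
The coefficient of `EE^3` at `n` is `1` if `n = tri r` for some `r`, else `0` (`EE_cube_cg` in Pool/Agent/helper81/PMGauss.lean; this is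
also proved inside Pool/Agent/helper65/EP/PA.lean, which you may import). So the coefficient at `N` is `1` iff `N = 3 + 24 tri r = 3 (2r+1)^2`. -/
def VTH_stmt : Prop := ∀ N : ℤ, (vvx ^ 3).coeff N = tht N

/-- **PRD** (medium, 90 lines; from FRO, VTH). The coefficients of `f^(2^a) * vvx^3` if `f` has no term below `-k`.
Proof. `HahnSeries.coeff_mul`: sum over the pairs `(i, j)` in the supports with `i + j = M`. The second factor has coefficient `1`
exactly at `j = 3 u^2`, `u` odd (`u` is determined by `j`), the first factor has at `i = M - 3 u^2` the coefficient `f.coeff (i/2^a)` if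
`2^a ∣ i`, else `0`, and it is `0` unless `i ≥ -k 2^a`, i.e. `3 u^2 ≤ M + k 2^a`, so `u ≤ (M + k 2^a).toNat`. (For the `u` in `us` with
`3 u^2 > M + k 2^a` the term is `0` as `(M - 3 u^2)/2^a < -k`.) Use `HahnSeries.coeff_mul_right'`/`left'` with larger finite index sets, or
multiply by `single (k 2^a)` and use power series (`PowerSeries.coeff_mul`). -/
def PRD_stmt : Prop := ∀ (a k : ℕ) (f : KK), (∀ N : ℤ, N < -(k : ℤ) → f.coeff N = 0) → ∀ M : ℤ,
  (f ^ (2 ^ a) * vvx ^ 3).coeff M = ∑ u ∈ us a k M, f.coeff ((M - 3 * (u : ℤ) ^ 2) / 2 ^ a)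

/-- **WKP** (short, 50 lines; from WM). `f ∈ WW` implies `f^(2^a) * vvx^3 ∈ WW`, `a ≥ 2`.
Proof. `Submodule.span_induction`. `f = ww^i`, `i ≥ 1`: `ww^(i 2^a) vvx^3 = ww^(i 2^a - 3)` as `ww vvx = 1` (second part of WM) and
`i 2^a ≥ 4`. Sums: `(f+g)^(2^a) = f^(2^a) + g^(2^a)` in characteristic two (`add_pow_char_pow`; `CharP KK 2`, for instance from
`charP_of_injective_algebraMap` or `HahnSeries.C_injective`). Scalars are `0` or `1`. -/
def WKP_stmt : Prop := ∀ (a : ℕ) (f : KK), 2 ≤ a → f ∈ WW → f ^ (2 ^ a) * vvx ^ 3 ∈ WW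

/-- **IDK** (medium, 120 lines; from JW, JN, NEG, PRD, WKP). The identity.
Proof. `f` := the element of `WW` with coefficients `JG ac k` (JW; `k > 0` since it is prime to `6`). It has no term below `-k` (JN). For
`w ∈ ws (k 2^a)` the number `j_w = k 2^a - 3 w^2` is positive and prime to `6` (`k 2^a` is even and not divisible by `3`, `w` odd); `f_w` := the
element of JW for it. `F = f^(2^a) vvx^3 + sum_w f_w` is in `WW` (WKP). For `M < 0`: the coefficient of the first part is (PRD, JN)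
the number of `u ∈ us a k M` with `(M - 3u^2)/2^a = -k`, i.e. `3 u^2 = M + k 2^a` (as `M - 3 u^2 < 0` all other terms vanish), which is `1` if
`-M = j_w` for some `w ∈ ws` (take `u = w`; `u` is determined by `M`), else `0`; the coefficient of the second part is the number of `w`
with `M = -j_w`, the same number. So `F = 0` by NEG (the field has two elements), and all the coefficients agree. -/
def IDK_stmt : Prop := ∀ a k : ℕ, 2 ≤ a → Nat.Coprime k 6 → ∀ M : ℤ,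
  ∑ u ∈ us a k M, JG ac k ((M - 3 * (u : ℤ) ^ 2) / 2 ^ a) =
    ∑ w ∈ ws (k * 2 ^ a), JG ac (k * 2 ^ a - 3 * w ^ 2) M

/-- **EMP** (short, 50 lines; from IDK, JN). The empty case. Proof: every term of the left side of IDK vanishes: let `u ∈ us`,
`M' = (M - 3u^2)/2^a` (exact). `M' > 0` is excluded by the first hypothesis. `M' = 0`: `JG ac k 0` is a sum of values `ac 0 = 0` (`0` is not
`23 mod 24`). `M' < 0`: by JN the term is `0` unless `M' = -k`, i.e. `3 u^2 = M + k 2^a`, excluded by the second hypothesis. -/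
def EMP_stmt : Prop := ∀ a k M : ℕ, 2 ≤ a → Nat.Coprime k 6 →
  (∀ u : ℕ, u % 2 = 1 → 3 * u ^ 2 < M → ¬ 2 ^ a ∣ M - 3 * u ^ 2) →
  (∀ u : ℕ, 3 * u ^ 2 ≠ M + k * 2 ^ a) →
  ∑ w ∈ ws (k * 2 ^ a), JG ac (k * 2 ^ a - 3 * w ^ 2) M = 0

/-- **PV** (short, 60 lines). The terms of the right side for primes. Proof. `j = k 2^a - 3 w^2 > 0`; `k = 1 mod 6` and `4 ∣ 2^a` give
`k 2^a = 2^a mod 24`; `3 w^2 = 3 mod 24`; `p = 3 - 2^a mod 24`. So `j p = -(2^a-3)^2 = -1 mod 24` (`2^a - 3` is prime to `6`; `ID_sq`, `ID_w` in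
Pool/Agent/helper41/EP/ID.lean may be imported). The only common divisor of `j` and `p` is `1` (`p` does not divide `j`), so
`JG ac j p = ac (j p)`, and `ac (j p) = pp ((j p + 1)/24)`. -/
def PV_stmt : Prop := ∀ a k w p : ℕ, 2 ≤ a → k % 6 = 1 → w ∈ ws (k * 2 ^ a) → p.Prime →
  p % 24 = tcl a → ¬ p ∣ k * 2 ^ a - 3 * w ^ 2 →
  24 ∣ (k * 2 ^ a - 3 * w ^ 2) * p + 1 ∧
    JG ac (k * 2 ^ a - 3 * w ^ 2) p = pp (((k * 2 ^ a - 3 * w ^ 2) * p + 1) / 24)

/-- **EVX** (short, 30 lines; from EMP, PV). An even value. Proof: otherwise all terms of the sum in EMP (with `M = p`) are `pp = 1`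
(PV), and their number is odd: contradiction. -/
def EVX_stmt : Prop := ∀ a k p : ℕ, 2 ≤ a → k % 6 = 1 → #(ws (k * 2 ^ a)) % 2 = 1 → p.Prime →
  p % 24 = tcl a →
  (∀ u : ℕ, u % 2 = 1 → 3 * u ^ 2 < p → ¬ 2 ^ a ∣ p - 3 * u ^ 2) →
  (∀ u : ℕ, 3 * u ^ 2 ≠ p + k * 2 ^ a) →
  (∀ w ∈ ws (k * 2 ^ a), ¬ p ∣ k * 2 ^ a - 3 * w ^ 2) →
  ∃ w ∈ ws (k * 2 ^ a), 24 ∣ (k * 2 ^ a - 3 * w ^ 2) * p + 1 ∧
    Even (Fintype.card (Nat.Partition (((k * 2 ^ a - 3 * w ^ 2) * p + 1) / 24)))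

/-! ### Counting -/

/-- **KC** (medium, 90 lines). There are at least `A/4` multipliers.
Proof. For `v = 1 mod 4` with `A ≤ v < 2A` let `k(v)` be the smallest `k = 1 mod 6` with `3 v^2 < k A`. It exists, and
`k(v) ≥ 7` (as `A ≤ 3 v^2`), so `(k(v) - 6) A ≤ 3 v^2` and `k(v) A ≤ 3 v^2 + 6 A ≤ 3 v^2 + 6 v + 3 = 3 (v+1)^2`. So the odd `w` with
`3 w^2 < k A` are exactly the odd `w ≤ v`, their number is `(v+1)/2`, which is odd. `k(v) A ≤ 3 (2A)^2`, so `k(v) ≤ 12 A`. `v` is determined by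
`k(v)` since `3 v^2 < k(v) A ≤ 3 (v+1)^2`. There are `A/4` values `v = A + 4 i + 1`, `i < A/4`. -/
def KC_stmt : Prop := ∀ a : ℕ, 2 ≤ a → 2 ^ a ≤ 4 * #(Ks a)

/-- **EXA** (short, 50 lines). Proof: `p = 2^a m + 3 u^2` with `1 ≤ m ≤ 2y/2^a` and `u ≤ Nat.sqrt (2y)`: the set is contained in the image of
`Icc 1 (2y/2^a) ×ˢ range (Nat.sqrt (2y) + 1)`. -/
def EXA_stmt : Prop := ∀ a y : ℕ, #(ExA a y) ≤ (2 * y / 2 ^ a) * (Nat.sqrt (2 * y) + 1)

/-- **EXB** (short, 50 lines). Proof: `3 u^2 = p + k 2^a ≤ 2 y + 12 A^2`, so `u^2 ≤ y + 4 A^2 < (2A + Nat.sqrt y + 1)^2`, `u ≤ 2A + Nat.sqrt y`, and `u`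
determines `p`. -/
def EXB_stmt : Prop := ∀ a y k : ℕ, k ≤ 12 * 2 ^ a → #(ExB a y k) ≤ 2 * 2 ^ a + Nat.sqrt y + 1

/-- **EXP** (medium, 70 lines). Proof: `w ∈ ws (k 2^a)` is odd and `3 w^2 < 12 A^2`, so `w < 2A`: at most `A` values. For each `w` at most one
prime `p > y` divides `j = k A - 3 w^2` (two different ones would give `j ≥ p p' > y^2 ≥ 16 A^2 > j > 0`). -/
def EXP_stmt : Prop := ∀ a y k : ℕ, k ≤ 12 * 2 ^ a → 4 * 2 ^ a ≤ y → #(ExP a y k) ≤ 2 ^ a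

/-- **MUL** (medium, 90 lines). Multiplicity. Proof. Let `(k₀, w₀)` be one pair. For another one `3 (w^2 - w₀^2) = (k - k₀) A`, so `A ∣ w^2 - w₀^2`;
`w, w₀` are odd, so (if `a ≥ 3`; `SQ` in Pool/Agent/helper89/EP/SQ.lean, second part, with `a - 3`) `2^(a-1)` divides `w - w₀` or `w + w₀`.
`w < 2A = 4 * 2^(a-1)` (`3 w^2 < 12 A^2`), so there are at most `4 + 4` values of `w` (if `a ≤ 2` there are at most `4` odd
numbers below `2A ≤ 8`). `w` and `j` determine `k`. -/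
def MUL_stmt : Prop := ∀ a j : ℕ, #(MuS a j) ≤ 8

/-- **FIB** (medium, 80 lines; from MUL). Proof. Let `N = 24 s - 1` (we may assume `s ≥ 1`, otherwise the set is empty). For a pair of the set
`j p = N` with `j = k A - 3 w^2`, `0 < j < 12 A^2`, `p ≤ 2y`, so `0 < N < 24 A^2 y`. At most two primes `p > y` divide `N`: three different ones would give
`y^3 < N < 24 A^2 y ≤ y^3` (as `5 A ≤ y`). For each of them `j = N/p` is fixed and MUL gives at most `8` values of `k`. -/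
def FIB_stmt : Prop := ∀ a y s : ℕ, 5 * 2 ^ a ≤ y → #(FiS a y s) ≤ 16

/-- **CNT** (medium, 120 lines; from EVX, EXA, EXB, EXP, FIB). The main inequality.
Proof. The pairs `(k,p)` in `Ks a ×ˢ Pt a y` which satisfy one of the three exceptional conditions are at most `#(Ks a)` times
the second bracket (EXA, EXB, EXP, for each `k`). For every other pair EVX gives `w` and `s = (j p + 1)/24`, `24 s = j p + 1`, `p(s)` even,
`j = k A - 3 w^2 < 12 A^2`, so `24 s ≤ (12 A^2 - 1) 2y + 1 ≤ 24 A^2 y` (`y ≥ 1`), `s ≤ 4^a y`. The number of these pairs is at most the sum over the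
`s ≤ 4^a y` with `p(s)` even of the cardinality in FIB (`Finset.card_le_mul_card_image` or `card_biUnion_le`). -/
def CNT_stmt : Prop := ∀ a y : ℕ, 2 ≤ a → 5 * 2 ^ a ≤ y →
  #(Ks a) * #(Pt a y) ≤ 16 * sE (4 ^ a * y) +
    #(Ks a) * ((2 * y / 2 ^ a) * (Nat.sqrt (2 * y) + 1) + (2 * 2 ^ a + Nat.sqrt y + 1) + 2 ^ a)

/-- **FINA** (medium, 200 lines; from KC, CNT). Theorem A.
Proof. `primes_ap_unif 24` (Pool/Agent/helper29/OC/PIAP.lean) gives `c₀ > 0`, `x₀` with `#(Pt a y) ≥ c₀ y/log y` for `y ≥ x₀` (the class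
`tcl a` is prime to `24`: `2^a` is even and not divisible by `3`, `a ≥ 2`). Put `A = 2^a`, `L = log A`, `C = (100/c₀)^2 + 1`,
`y = y(a) = ⌊A^2/(C L^2)⌋`. For large `a`: `5A ≤ y ≤ A^2`, `log y ≤ 2 L`. The bracket in CNT is at most
`(2y/A)(2 √y) + 3A + √y + 1 + A ≤ 4 y^(3/2)/A + 6 A` (`√y ≤ A`), and `4 y^(3/2)/A ≤ 4 y/(√C L) ≤ c₀ y/(25 L)`, `6 A ≤ c₀ y/(25 L)` for large `a`
(`y/L ≥ A^2/(2 C L^3)`), while `#(Pt a y) ≥ c₀ y/(2L)`. So CNT and KC: `16 sE (A^2 y) ≥ (A/4) (c₀ y/(4L))`, hence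
`sE (4^a y(a)) ≥ c₁ A^3/L^3` with `c₁ > 0`, for `a ≥ a₀`. Given a large `X` let `a` be the largest integer with `16^a ≤ X` (`4^a y(a) ≤ 16^a` for large
`a`, so `sE X ≥ sE (4^a y(a))`, `sE` is monotone). `X < 16^(a+1)`, so `A > X^(1/4)/2`, `A ≤ X^(1/4)`, `L ≤ log X/4`:
`sE X ≥ c₁ (X^(3/4)/8)/(log X/4)^3 = 8 c₁ X^(3/4)/(log X)^3`. (To get the exponent `3/2` of the logarithm: take `a` largest with
`4^a y(a) ≤ X` instead; then `X < 4^(a+1) y(a+1) ≤ 16^(a+1)/(C log^2 2^(a+1))`, so `A^4 ≥ X C L^2/16 ≥ c₂ X (log X)^2` (`L ≥ log X/5` for large `X` as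
`X ≤ 16^(a+1)`), `A^3 ≥ c₃ X^(3/4) (log X)^(3/2)`, `L ≤ log X`, and `sE X ≥ c₁ A^3/L^3 ≥ c₄ X^(3/4)/(log X)^(3/2)`.) The function
`a ↦ 4^a y(a)` need not be monotone in the proof: choose `a` largest with `4^a y(a) ≤ X` among the `a` with `2^a ≤ X`. -/
def RESA_stmt : Prop := ∃ c : ℝ, 0 < c ∧ ∃ X₀ : ℕ, ∀ X : ℕ, X₀ ≤ X →
  c * (X : ℝ) ^ (3 / 4 : ℝ) / Real.log X ^ (3 / 2 : ℝ) ≤ (sE X : ℝ)

end Pool.Agent.EP
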