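import Pool.Agent.helper7.EP.AllH
import Pool.Agent.helper7.EP.SpecA
import Pool.Agent.helper89.EP.SQ
import Pool.Agent.helper33.EP.FRO
import Pool.Agent.helper99.EP.VTH
import Pool.Agent.helper99.EP.PRD
import Pool.Agent.helper12.EP.WKP
import Pool.Agent.helper16.EP.IDK
import Pool.Agent.helper93.EP.EMP
import Pool.Agent.helper51.EP.PV
import Pool.Agent.helper2.EP.EVX
import Pool.Agent.helper89.EP.KCX
import Pool.Agent.helper64.EP.EXA
import Pool.Agent.helper70.EP.EXB
import Pool.Agent.helper73.EP.EXP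
import Pool.Agent.helper52.EP.MUL
import Pool.Agent.helper72.EP.FIB
import Pool.Agent.helper28.EP.CNT
import Pool.Agent.helper24.EP.FINA

/-!
# Project ep:, assembly of Theorem A
-/

set_option autoImplicit false

namespace Pool.Agent.EP

theorem all_PRD : PRD_stmt := PRD FRO VTH
theorem all_WKP : WKP_stmt := WKP WM
theorem all_IDK : IDK_stmt := IDK all_JW JN all_NEG all_PRD all_WKP
theorem all_EMP : EMP_stmt := EMP all_IDK JN
theorem all_EVX : EVX_stmt := EVX all_EMP PV
theorem all_FIB : FIB_stmt := FIB MUL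
theorem all_CNT : CNT_stmt := CNT all_EVX EXA EXB EXP all_FIB
theorem all_RESA : RESA_stmt := FINA KCX all_CNT

end Pool.Agent.EP
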