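import Pool.Agent.helper7.EP.Defs

/-!
# Project ep:, part L (the distribution of the block function on special numbers, and the end of the proof)

`A = 2^a`, `q = 4A = 2^(a+2)`, `ell = 2^(a-j)`, `L = 4 ell = 2^(a+2-j)`. The block function is `#(rs (2^a) n)`.
Complete proofs in the docstrings. Paper proof: /team-store/helper7_EP_paper.md
-/

set_option autoImplicit false

open Finset
open scoped Real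

noncomputable section

namespace Pool.Agent.EP

/-- **SQ** (short, 60 lines). Odd squares modulo powers of two.
Proof. First part: induction on `a`: `N = 1 mod 8`, `v = 1` for `a = 0`; if `2^(k) ∣ v^2 - N` (`k = a+3 ≥ 3`) but `2^(k+1)` does not divide,
replace `v` by `v + 2^(k-1)`: the square changes by `2^k v + 2^(2k-2)`, `2k-2 ≥ k+1`, `v` odd. Second part: `u^2-v^2 = (u-v)(u+v)`, both
factors are even and exactly one of them is divisible by `4` (their sum is `2u`), so the other one is `2` times an odd number. -/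
def SQ_stmt : Prop :=
  (∀ (a : ℕ) (N : ℤ), N % 8 = 1 → ∃ v : ℤ, v % 2 = 1 ∧ (2 : ℤ) ^ (a + 3) ∣ v ^ 2 - N) ∧
  (∀ (a : ℕ) (u v : ℤ), u % 2 = 1 → v % 2 = 1 →
    ((2 : ℤ) ^ (a + 3) ∣ u ^ 2 - v ^ 2 ↔ (2 : ℤ) ^ (a + 2) ∣ u - v ∨ (2 : ℤ) ^ (a + 2) ∣ u + v))

/-- **FP** (medium, 150 lines; from SQ). The parity of the block function.
Proof. `r ∈ rs (2^a) n` iff `u = 2r+1` satisfies `u ≤ R = Nat.sqrt (8n+1)` and `8 * 2^a ∣ (8n+1) - u^2` (`8 tri r + 1 = u^2`), i.e. (SQ)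
`u = v` or `u = -v` modulo `q`. As `v` is odd all `u ≥ 1` in these two (different) classes are odd. So `#(rs (2^a) n)` is the
number of `u` in `[1,R]` congruent to `v` or `-v` mod `q`. Every block `(kq, (k+1)q]` contains exactly two such `u`, so the
parity is that of the number of `u` in `[1, R % q]` congruent to `v` or `-v`, i.e. of `[v₀ ≤ R % q] + [q - v₀ ≤ R % q]`, `0 < v₀ < q`,
`v₀ = v mod q`. Case 1: `v = k q + δ`, `|δ| < L`, `δ` odd: the two numbers are `|δ| < L ≤ R % q` and `q - |δ| > q - L ≥ R % q`: odd.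
Case 2: `v = k q + q/2 + δ`, `|δ| < L`: the two numbers are `q/2 - |δ|` and `q/2 + |δ|` (`δ ≠ 0` as `q/2` is even): if
`R % q ≤ q/2 - L` none, if `R % q ≥ q/2 + L` both. -/
def FP_stmt : Prop := ∀ (a n L : ℕ) (v : ℤ), 0 < L → 4 * L ≤ 2 ^ (a + 2) → v % 2 = 1 →
  (2 : ℤ) ^ (a + 3) ∣ v ^ 2 - (8 * (n : ℤ) + 1) →
  ((∃ k : ℤ, |v - k * 2 ^ (a + 2)| < L) → L ≤ Nat.sqrt (8 * n + 1) % 2 ^ (a + 2) →
    Nat.sqrt (8 * n + 1) % 2 ^ (a + 2) + L ≤ 2 ^ (a + 2) → #(rs (2 ^ a) n) % 2 = 1) ∧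
  ((∃ k : ℤ, |v - (k * 2 ^ (a + 2) + 2 ^ (a + 1))| < L) →
    (Nat.sqrt (8 * n + 1) % 2 ^ (a + 2) + L ≤ 2 ^ (a + 1) ∨
      2 ^ (a + 1) + L ≤ Nat.sqrt (8 * n + 1) % 2 ^ (a + 2)) → #(rs (2 ^ a) n) % 2 = 0)

/-- **RT** (medium, 100 lines; from SQ). Multiplicativity of the root.
Proof. `s p`: `c` is odd, let `c c' = 1 mod 2^(a+3)`; `c' p = 1 mod 8` (`p = c mod 8`); SQ gives `s` odd with `s^2 = c' p mod 2^(a+3)`.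
`g`: `r0 a = 3 mod 8`, so SQ gives `g` odd with `3 g^2 = r0 a mod 2^(a+3)` (the inverse of `3` times `r0 a` is `1 mod 8`).
`γ = g c (1 + 3 * 2^(a-1))`. With `A = 2^a`, `z = g c s₁ s₂`, modulo `8A`: `(1+3A/2)^2 = 1 + 3A + 9A^2/4 = 1 + 3A` (`a ≥ 5`), so
`3 (γ s₁ s₂)^2 = 3 z^2 (1+3A) = r0 c^2 s₁^2 s₂^2 (1+3A) = r0 p₁ p₂ (1+3A)`, and `r0 p₁ p₂ = 3 mod 8` (`p₁ p₂ = c^2 s₁^2 s₂^2 = 1 mod 8`), so
`3A r0 p₁p₂ = 9A = A mod 8A`. So `3 (γ s₁ s₂)^2 = r0 p₁ p₂ + A = 24n+3 = 3(8n+1)`, and `3` is invertible. -/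
def RT_stmt : Prop := ∀ a c : ℕ, 5 ≤ a → c % 2 = 1 →
  ∃ (g : ℤ) (s : ℕ → ℤ), g % 2 = 1 ∧
    (∀ p : ℕ, p % 24 = c % 24 → s p % 2 = 1 ∧ (2 : ℤ) ^ (a + 3) ∣ c * (s p) ^ 2 - p) ∧
    ∀ p₁ p₂ n : ℕ, p₁ % 24 = c % 24 → p₂ % 24 = c % 24 → 24 * n + 3 = r0 a * p₁ * p₂ + 2 ^ a →
      (2 : ℤ) ^ (a + 3) ∣ (g * s p₁ * s p₂) ^ 2 - (8 * (n : ℤ) + 1)

/-- **BIL** (long, 200 lines). The bilinear estimate modulo `q = 2^m`, `L = 2^l`.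
Proof. Let `e : ZMod q → ℂ` be the standard additive character (`ZMod.stdAddChar`), `B(h) = sum_{(s₁,s₂)} e(h g s₁ s₂)`,
`D(h) = sum_{y<L} e(h y)`. `Σ := #{(s₁,s₂,y,y') : g s₁ s₂ = x + y - y'} = (1/q) sum_h e(-h x) |D(h)|^2 B(h)` (orthogonality:
`AddChar.sum_mulShift`, primitive character; the factor is `D(-h) D(h)` up to the sign of `h`). The term `h = 0` is `L^2 #S₁ #S₂/q`.
Let `h ≠ 0`. If `h L = 0` in `ZMod q` then `D(h) = 0` (geometric sum: `(e(h) - 1) D(h) = e(hL) - 1 = 0`, `e(h) ≠ 1`). If `h L ≠ 0`: by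
Cauchy-Schwarz `|B(h)|^2 ≤ #S₁ sum_{s₁ ∈ ZMod q} |sum_{s₂} e(h g s₁ s₂)|^2 = #S₁ q #{(s₂,s₂') : h g (s₂-s₂') = 0} ≤ #S₁ q #S₂ K(h)`, `K(h)` the
number of `t` in `ZMod q` with `h t = 0` (`g` is a unit), and `K(h) ≤ q/(2L)`: write `h = 2^i h'`, `h'` odd, `i < m`; `h t = 0` iff
`2^(m-i) ∣ t`, so `K(h) = 2^i`, and `h L ≠ 0` means `i + l < m`. Parseval: `sum_h |D(h)|^2 = q L` (`L ≤ q`, the `y < L` are different mod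
`q`). So the terms `h ≠ 0` contribute at most `(1/q) q L sqrt(#S₁ #S₂ q q/(2L)) = q sqrt(L #S₁ #S₂/2)`, and this is at most
`L^2 #S₁ #S₂/(2q)` because `4 q^4 ≤ L^3 #S₁ #S₂`. Hence `Σ ≥ L^2 #S₁ #S₂/(2q)`, and every pair `(s₁,s₂)` occurs with at most `L`
pairs `(y,y')` (`y'` determines `y` mod `q`). -/
def BIL_stmt : Prop := ∀ m l : ℕ, l ≤ m →
  ∀ (S₁ S₂ : Finset (ZMod (2 ^ m))) (g x : ZMod (2 ^ m)), IsUnit g →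
    4 * (2 ^ m) ^ 4 ≤ (2 ^ l) ^ 3 * (#S₁ * #S₂) →
    2 ^ l * (#S₁ * #S₂) ≤ 2 * 2 ^ m *
      (Set.ncard {s : ZMod (2 ^ m) × ZMod (2 ^ m) | s.1 ∈ S₁ ∧ s.2 ∈ S₂ ∧
        ∃ y y' : ℕ, y < 2 ^ l ∧ y' < 2 ^ l ∧ g * s.1 * s.2 = x + (y : ZMod (2 ^ m)) - y'})

/-- **GEO1** (medium, 80 lines). The value of `Rb` does not change much in a window.
Proof. Let `r = r0 a` (`11` or `19`), `N₀ = (r y₁ y₂ + A)/3`, `N₁ = (r p₁ p₂ + A)/3` (floor), `R₀`, `R₁` the roots. Monotonicity is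
clear (`Nat.sqrt_le_sqrt`). Suppose `R₁ ≥ R₀ + L + 1`. Then `N₁ ≥ (R₀+L+1)^2` and `(R₀+1)^2 ≥ N₀ + 1`, so
`N₁ - N₀ - 1 ≥ L (2R₀+2+L) ≥ 8 ell (R₀+1)`. `3 N₁ ≤ r p₁ p₂ + A`, `3 N₀ ≥ r y₁ y₂ + A - 2`, so
`3 (N₁-N₀-1) < r (p₁p₂ - y₁y₂) ≤ r ell (y₁+y₂+ell)`. So `24 (R₀+1) ≤ r (y₁+y₂+ell)`. But `3 (R₀+1)^2 ≥ 3N₀ + 3 > r y₁ y₂`, so
`192 r y₁y₂ < r^2 (y₁+y₂+ell)^2`, `192 y₁ y₂ < 19 (y₁+y₂+ell)^2`. As `y ≤ y₁, y₂ ≤ 2y`, `ell ≤ y/8`: `(y₁+y₂)^2 ≤ (9/2) y₁y₂`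
(`(2y₁-y₂)(2y₂-y₁) ≥ 0`), and `19 (y₁+y₂+ell)^2 ≤ 96 y₁y₂` for instance by `(s+t)^2 ≤ (1+1/8) s^2 + 9 t^2`, `t = ell`,
`9 ell^2 ≤ (9/64) y₁y₂`: `19 (81/16 + 9/64) < 99`. Contradiction. -/
def GEO1_stmt : Prop := ∀ a j y y₁ y₂ p₁ p₂ : ℕ, 3 ≤ j → j ≤ a → 2 ^ a ≤ y →
  y ≤ y₁ → y₁ ≤ 2 * y → y ≤ y₂ → y₂ ≤ 2 * y →
  y₁ ≤ p₁ → p₁ < y₁ + 2 ^ (a - j) → y₂ ≤ p₂ → p₂ < y₂ + 2 ^ (a - j) →
  Rb a y₁ y₂ ≤ Rb a p₁ p₂ ∧ Rb a p₁ p₂ ≤ Rb a y₁ y₂ + 2 ^ (a + 2 - j)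

/-- **GEO2** (medium, 100 lines). The values of `Rb` at two windows.
Proof. Notation as in GEO1 with `N₀` for `(y₁,y₂)`, `N'` for `(y₁ + i ell, y₂)`, roots `R₀`, `R'`.
Lower bound: suppose `R' ≤ R₀ + 12 ell - 1`. Then `N' < (R₀+12 ell)^2`, `N₀ ≥ R₀^2`, so `N'-N₀ < 24 ell R₀ + 144 ell^2`; and
`3 (N'-N₀) ≥ r i ell y₂ - 2 ≥ 30 r ell y₂ - 2`. So `30 r y₂ < 72 R₀ + 432 ell + 2`. `3R₀^2 ≤ r y₁y₂ + A ≤ (2r+1) y₂^2`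
(`y₁ ≤ 2y ≤ 2y₂`, `A ≤ y₂`), `ell ≤ y₂/8`. If `r = 11`: `R₀^2 ≤ (23/3) y₂^2`, `72 R₀ ≤ 200 y₂`, total `≤ 254 y₂ + 2 < 330 y₂`. If `r = 19`:
`R₀^2 ≤ 13 y₂^2`, `72 R₀ ≤ 260 y₂`, total `≤ 314 y₂ + 2 < 570 y₂`. Contradiction.
Upper bound: suppose `R' ≥ R₀ + D`, `D = q - 3L + 1`. `L ≤ q/8`, so `D - 1 ≥ (5/8) q = (5/2) A`. `N' ≥ (R₀+D)^2`, `N₀ < (R₀+1)^2`, so
`N'-N₀ > (D-1)(2R₀+D+1) ≥ 5A (R₀+1)`; `3(N'-N₀) ≤ r i ell y₂ + 2 ≤ r A y₂ + 2` (`i ≤ 2^j`). So `15 (R₀+1) ≤ r y₂`, but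
`3 (R₀+1)^2 > r y₁ y₂ ≥ r y₂^2/2`: `225 r y₂^2/6 < r^2 y₂^2`, `37.5 < r`, contradiction. -/
def GEO2_stmt : Prop := ∀ a j y y₁ y₂ i : ℕ, 3 ≤ j → j ≤ a → 2 ^ a ≤ y →
  y ≤ y₁ → y₁ + i * 2 ^ (a - j) ≤ 2 * y → y ≤ y₂ → y₂ ≤ 2 * y → 30 ≤ i → i ≤ 2 ^ j →
  Rb a y₁ y₂ + 3 * 2 ^ (a + 2 - j) ≤ Rb a (y₁ + i * 2 ^ (a - j)) y₂ ∧
  Rb a (y₁ + i * 2 ^ (a - j)) y₂ + 3 * 2 ^ (a + 2 - j) ≤ Rb a y₁ y₂ + 2 ^ (a + 2)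

/-- The `n` with `24 n + 3 = r0 p₁ p₂ + 2^a`. -/
def nu (a p₁ p₂ : ℕ) : ℕ := (r0 a * p₁ * p₂ + 2 ^ a - 3) / 24

/-- The window pair `(y₁,y₂)` is good for the parity `e`. -/
def Good (a j e y₁ y₂ : ℕ) : Prop :=
  if e = 1 then
    2 ^ (a + 2 - j) ≤ Rb a y₁ y₂ % 2 ^ (a + 2) ∧
      Rb a y₁ y₂ % 2 ^ (a + 2) + 2 * 2 ^ (a + 2 - j) ≤ 2 ^ (a + 2)
  else
    Rb a y₁ y₂ % 2 ^ (a + 2) + 2 * 2 ^ (a + 2 - j) ≤ 2 ^ (a + 1) ∨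
      2 ^ (a + 1) + 2 ^ (a + 2 - j) ≤ Rb a y₁ y₂ % 2 ^ (a + 2)

/-- **WIN** (long, 150 lines; from FP, RT, BIL, GEO1). A good pair of windows contains many pairs of primes with the parity `e`.
Proof. Take `g`, `s` from RT for `c`. `s` mod `q` is injective on each window: `s p = s p' mod q` implies `s(p)^2 = s(p')^2 mod 2q`
(both odd), so `p = p' mod 2q = 8A`, and `|p-p'| < ell < 8A`. Let `S_i` be the image of the window `i` in `ZMod q`. Apply BIL with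
`m = a+2`, `l = a+2-j`, `x = 0` (`e = 1`) or `x = 2^(a+1)` (`e = 0`). For a pair `(p₁,p₂)` found in this way let `n = nu a p₁ p₂`:
`24 n + 3 = r0 p₁ p₂ + 2^a` (`p₁ p₂ = c^2 = 1 mod 24`; `r0 a + 2^a = 3 mod 24` for `a ≥ 3` by the parity of `a`), `v = g s(p₁) s(p₂)`
is odd, `v^2 = 8n+1 mod 8A` (RT), `|v - (kq + x)| < L` for some `k`. `8n+1 = (r0 p₁p₂ + 2^a)/3`, so
`Nat.sqrt (8n+1) = Rb a p₁ p₂ ∈ [R₀, R₀+L]`, `R₀ = Rb a y₁ y₂` (GEO1). `e = 1`: `R₀ % q ∈ [L, q-2L]`, so `R % q ∈ [L, q-L]`.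
`e = 0`: if `R₀ % q ≤ q/2-2L` then `R % q ≤ q/2-L`; if `R₀ % q ≥ q/2+L` then either `R % q ≥ q/2+L` or there is a wrap and `R % q < L ≤ q/2-L`.
Now FP (`4L ≤ q` as `j ≥ 3`). -/
def WIN_stmt : Prop := ∀ a j c e y y₁ y₂ : ℕ, 5 ≤ a → 3 ≤ j → j ≤ a → 2 ^ a ≤ y →
  y ≤ y₁ → y₁ ≤ 2 * y → y ≤ y₂ → y₂ ≤ 2 * y → c < 24 → Nat.Coprime c 6 → e < 2 →
  Good a j e y₁ y₂ →
  4 * (2 ^ (a + 2)) ^ 4 ≤
    (2 ^ (a + 2 - j)) ^ 3 * (#(Wd c y₁ (2 ^ (a - j))) * #(Wd c y₂ (2 ^ (a - j)))) →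
  2 ^ (a + 2 - j) * (#(Wd c y₁ (2 ^ (a - j))) * #(Wd c y₂ (2 ^ (a - j)))) ≤
    2 * 2 ^ (a + 2) * #{p ∈ Wd c y₁ (2 ^ (a - j)) ×ˢ Wd c y₂ (2 ^ (a - j)) |
      #(rs (2 ^ a) (nu a p.1 p.2)) % 2 = e}

/-- **BAD** (medium, 60 lines; from GEO2). For fixed second window at most 30 of `2^j` consecutive windows are bad.
Proof. Let `i < i'`, both bad for `y₂`, `i' - i ≤ 2^j`. If `i' - i ≥ 30` then by GEO2 `R' - R₀ ∈ [3L, q-3L]`. `e = 1`: bad means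
`R % q < L` or `R % q > q-2L`, i.e. `R` lies in `(-2L, L)` mod `q`; the difference of two such numbers lies in `(-3L, 3L)` mod `q`,
contradiction. `e = 0`: bad means `q/2-2L < R % q < q/2+L`: the same. So `i' - i < 30`. Hence in a block
`[k 2^j, (k+1) 2^j)` at most 30 bad `i`; `T/2^j + 1` blocks cover `range T`. -/
def BAD_stmt : Prop := ∀ a j e y y₂ T : ℕ, 3 ≤ j → j ≤ a → 2 ^ a ≤ y → y ≤ y₂ → y₂ ≤ 2 * y →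
  T * 2 ^ (a - j) ≤ y + 2 ^ (a - j) → e < 2 →
  Set.ncard {i : ℕ | i < T ∧ ¬ Good a j e (y + i * 2 ^ (a - j)) y₂} ≤ 30 * (T / 2 ^ j + 1)

/-- The pairs of primes `≡ c mod 24` in `[y, 2y + t)` with parity `e` of the block function. -/
def Prs (a c e y t : ℕ) : Finset (ℕ × ℕ) :=
  {p ∈ Wd c y (y + t) ×ˢ Wd c y (y + t) | #(rs (2 ^ a) (nu a p.1 p.2)) % 2 = e}

/-- **TOT** (long, 150 lines; from WIN, BAD). The total number of pairs.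
Proof. `ell = 2^(a-j)`, `T = y/ell + 1`, `W_i = Wd c (y + i ell) ell`, `i < T`: disjoint, contained in `[y, 2y+ell)`, and they cover
the primes `≡ c` in `[y,2y)`. `Pop = {i < T : N₀ ≤ 2 T #W_i}`. The others contain fewer than `T N₀/(2T) = N₀/2` primes, so
`sum_{Pop} #W_i ≥ N₀/2`, and `#W_i ≤ ell`, so `2 ell #Pop ≥ N₀`. Fix `i' ∈ Pop`. By BAD at most `30 (T/2^j+1)` of the `i ∈ Pop` are
not good, and `60 (T/2^j+1) ≤ #Pop` (hypothesis 2 and `2 ell #Pop ≥ N₀`), so at least `#Pop/2` are good. For `i, i' ∈ Pop`: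
`4 T^2 #W_i #W_i' ≥ N₀^2`, so (hypothesis 1) `4 q^4 ≤ L^3 #W_i #W_i'`, and WIN gives at least
`L #W_i #W_i'/(2q) ≥ (1/2^(j+1)) N₀^2/(4T^2)` pairs. Different `(i,i')` give different pairs. Total
`≥ #Pop (#Pop/2) N₀^2/(2^(j+3) T^2) ≥ N₀^4/(2^(j+6) ell^2 T^2)` and `ell T ≤ y + ell ≤ 2y`. -/
def TOT_stmt : Prop := ∀ a j c e y N₀ : ℕ, 5 ≤ a → 3 ≤ j → j ≤ a → 2 ^ a ≤ y → c < 24 →
  Nat.Coprime c 6 → e < 2 → N₀ ≤ #(Wd c y y) →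
  16 * (2 ^ (a + 2)) ^ 4 * (y / 2 ^ (a - j) + 1) ^ 2 ≤ (2 ^ (a + 2 - j)) ^ 3 * N₀ ^ 2 →
  120 * 2 ^ (a - j) * ((y / 2 ^ (a - j) + 1) / 2 ^ j + 1) ≤ N₀ →
  N₀ ^ 4 ≤ 256 * 2 ^ j * y ^ 2 * #(Prs a c e y (2 ^ (a - j)))

/-- **LOW** (long, 180 lines; from TOT). Both parities occur for at least `X^(1-ε)` special `n ≤ X`.
Proof. We may assume `ε ≤ 1/10` (replace `ε` by `min ε (1/10)`). `δ = ε/8`, `y = Nat.sqrt X / 2` (so `√X/4 ≤ y ≤ √X/2`, and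
`16 * 4^a ≤ X` gives `2 * 2^a ≤ y`). `primesIn_ge` (Pool/Agent/helper86/PrimesDyadic.lean): at least `y^(1-δ)` primes in `(y,2y]`; all of
them are prime to `6` and `≠ 2y`, so some class `c mod 24` prime to `6` has `#(Wd c y y) ≥ N₀ := ⌈y^(1-δ)/8⌉`. Let `2^j` be the smallest
power of two `≥ 2880 y^δ`, `2^j ≤ 5760 y^δ`. `ell T ≤ 2y`, `T = y/ell+1 ≤ 2y/ell = 2y 2^j/A` (`ell ≤ y`).
Hypothesis 1 of TOT: it follows from `2^14 2^(5j) y^(2δ) ≤ A`, true since `2^(5j) y^(2δ) ≤ 5760^5 y^(7δ) ≤ 5760^5 X^(3.5 δ)` and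
`A ≥ X^ε = X^(8δ)`, `X` large. Hypothesis 2: `120 ell (T/2^j+1) ≤ 240 y/2^j + 120 ell ≤ 360 y/2^j ≤ y^(1-δ)/8 ≤ N₀` (`ell = A/2^j ≤ y/2^j`).
`3 ≤ j ≤ a` for large `X`. TOT: `#Prs ≥ N₀^4/(256 2^j y^2) ≥ c y^(2-5δ) ≥ c' X^(1-2.5δ)`. For a pair `(p₁,p₂)` in `Prs` and
`n = nu a p₁ p₂`: `24n+3 = r0 p₁p₂ + 2^a` (as in WIN), `p_i ≥ y > 2^a`, so `Sp a n`; `n ≤ X`: `p_i < 2y + y/16`, `19 p₁ p₂ + 2^a ≤ 24 X`.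
`n` determines `p₁p₂` and hence the pair up to order: at least `#Prs/2 ≥ X^(1-ε)` different `n`. -/
def LOW_stmt : Prop := ∀ ε : ℝ, 0 < ε → ∃ X₀ : ℕ, ∀ X a e : ℕ, X₀ ≤ X → (X : ℝ) ^ ε ≤ 2 ^ a →
  16 * 4 ^ a ≤ X → e < 2 →
  (X : ℝ) ^ (1 - ε) ≤ (Set.ncard {n : ℕ | n ≤ X ∧ Sp a n ∧ #(rs (2 ^ a) n) % 2 = e} : ℝ)

/-- **SPK** (short, 60 lines). For special `n` the gcds of the identity divide `r0 a`, and the number of terms is `kap a` mod 2.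
Proof. `M = 24n+3-2^a = r0 p₁ p₂`, `p_i > 2^a > 2^a - 3w^2 > 0` prime, so `gcd(2^a-3w^2, M) = gcd(2^a-3w^2, r0)`. -/
def SPK_stmt : Prop := ∀ a n w : ℕ, 3 ≤ a → Sp a n → w ∈ ws (2 ^ a) →
  Nat.gcd (2 ^ a - 3 * w ^ 2) (24 * n + 3 - 2 ^ a) = Nat.gcd (2 ^ a - 3 * w ^ 2) (r0 a)

/-- The identity, proved in part H. -/
def IDL_stmt : Prop := ∀ a n : ℕ, 3 ≤ a → 2 ^ a < 24 * n + 3 →
  ∑ r ∈ rs (2 ^ a) n, pp ((n - tri r) / 2 ^ a) =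
    ∑ w ∈ ws (2 ^ a), ∑ d ∈ (Nat.gcd (2 ^ a - 3 * w ^ 2) (24 * n + 3 - 2 ^ a)).divisors,
      pp (((2 ^ a - 3 * w ^ 2) * (24 * n + 3 - 2 ^ a) / d ^ 2 + 1) / 24)

/-- **EXC** (long, 150 lines; from the identity and SPK). The number of exceptions.
Proof. `A = 2^a`, `X = A Y`, `n ≤ X` special, `M = 24n+3-A > 0`. If all values `pp` in the identity are `1` then its left side is
`#(rs A n)` and its right side is `sum_w #divisors(gcd(A-3w^2, M)) = kap a` (SPK). So an exceptional `n` is of one of two types.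
(1) `n = tri r + A m`, `p(m)` even, `m ≤ Y`, `tri r ≤ X`: `(2r+1)^2 ≤ 8X+1`, at most `Nat.sqrt (8X+1) + 1` values of `r`; total
`≤ (Nat.sqrt(8X+1)+1) sE Y`. (2) There are `w` and `d ∣ gcd(A-3w^2, r0 a)`, so `d = 1` or `d = r0 a` (`r0 a` is prime), with
`s = ((A-3w^2) M/d^2+1)/24`, `p(s)` even. `(A-3w^2) M/d^2 = 24s - 1` (exact: as in ID, `(A-3w^2) M = -1 mod 24`, `d^2 = 1 mod 24`),
`24 s ≤ (A-3)(24X+3-A)+1 ≤ 24 A X`, so `s ≤ A X = 4^a Y`, `s ≥ 1`; and `M ∣ d^2 (24s-1) ≤ 361 * 24 * 4^a Y`. For given `d`, `s` there are at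
most `D` values of `M`, hence of `n`: total `≤ 2 D sE(4^a Y)`. -/
def EXC_stmt : Prop := ∀ a Y D : ℕ, 3 ≤ a →
  (∀ m : ℕ, 0 < m → m ≤ 8664 * (4 ^ a * Y) → m.divisors.card ≤ D) →
  Set.ncard {n : ℕ | n ≤ 2 ^ a * Y ∧ Sp a n ∧ ((#(rs (2 ^ a) n) : ℕ) : ZMod 2) ≠ kap a} ≤
    (Nat.sqrt (8 * (2 ^ a * Y) + 1) + 1) * sE Y + 2 * D * sE (4 ^ a * Y)

/-- **FIN** (medium, 150 lines; from LOW, EXC). The theorem.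
Proof. We may assume `ε ≤ 1/100` (for smaller `ε` the hypothesis is weaker and the conclusion stronger, as `X Z ≥ 1`).
`ε₁ = ε/10`, `U = X Z`. Let `a` be the largest integer with `256 * 4^a * X ≤ Z`: `A = 2^a` satisfies
`√(Z/X)/32 < A ≤ √(Z/X)/16`, so `A > X^(ε/2)/32` (large, so `a ≥ 5`), `16 A ≤ √(Z/X) ≤ X` (`Z ≤ X^3`). `X' = A X`: `√U/32 < X' ≤ √U/16`,
`16 * 4^a ≤ X'`, `X'^ε₁ ≤ X^(2ε₁) ≤ A`. LOW (`ε₁`, `X'`, the parity `e` different from `kap a`): at least `X'^(1-ε₁)` special `n ≤ X'`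
with `#(rs A n) ≠ kap a` mod 2. EXC (`Y = X`), `D` from the divisor bound `card_divisors_le` (Pool/Agent/helper47/RA/Num.lean) with exponent
`ε₁`: `D ≤ C (8664 Z)^ε₁ + 1`, and `sE (4^a X) ≤ sE Z`. If both alternatives fail then
`(√U/32)^(1-ε₁) ≤ (Nat.sqrt(8X'+1)+1) U^(1/4-ε) + 2D U^(1/2-ε) ≤ C' U^(1/2-ε+ε₁)` (`X' ≤ √U/16`, so the root is `≤ 2 U^(1/4)`),
impossible for large `U` as `1/2 - ε₁/2 > 1/2 - ε + ε₁`. -/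
def RES_stmt : Prop := ∀ ε : ℝ, 0 < ε → ∃ X₀ : ℕ, ∀ X Z : ℕ, X₀ ≤ X →
  (X : ℝ) ^ (1 + ε) ≤ Z → Z ≤ X ^ 3 →
  ((X : ℝ) * Z) ^ (1 / 4 - ε) ≤ sE X ∨ ((X : ℝ) * Z) ^ (1 / 2 - ε) ≤ sE Z

end Pool.Agent.EP
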