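import Pool.Agent.helper7.EP.SpecA
import Pool.Agent.helper7.EP.SpecL

/-!
# Project ep:, part B2 (golden ratio theorem for the even values)

`A = 2^a`. The multipliers are the primes `k = 1 mod 24` in `(A, 2A]`; `M = 24 n + 3 - A = r0 p₁ p₂` with large primes.
Complete proofs in the docstrings. Paper proof: /team-store/helper7_EP_paper.md, part III.
-/

set_option autoImplicit false

open Finset PowerSeries

noncomputable section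

namespace Pool.Agent.EP

/-- Special numbers with prime factors above `y`. -/
def SpY (a y n : ℕ) : Prop :=
  ∃ p₁ p₂ : ℕ, p₁.Prime ∧ p₂.Prime ∧ y < p₁ ∧ y < p₂ ∧ 24 * n + 3 = r0 a * p₁ * p₂ + 2 ^ a

/-- The prime multipliers. -/
def PK (a : ℕ) : Finset ℕ := {k ∈ Ioc (2 ^ a) (2 * 2 ^ a) | k.Prime ∧ k % 24 = 1 % 24}

/-- The value of the right side of the identity on special numbers if all values of `p` in it are odd. -/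
def kapk (a k : ℕ) : ZMod 2 :=
  ∑ w ∈ ws (k * 2 ^ a), (((Nat.gcd (k * 2 ^ a - 3 * w ^ 2) (r0 a)).divisors.card : ℕ) : ZMod 2)

/-- `n` is exceptional for `k`: first type. -/
def XA (a k n : ℕ) : Prop :=
  (∃ u : ℕ, 3 * u ^ 2 = 24 * n + 3) ∨ ∃ u : ℕ, 3 * u ^ 2 + 2 ^ a = 24 * n + 3 + k * 2 ^ a

/-- `n` is exceptional for `k`: second type (a large prime factor of `M` divides some `k A - 3 w^2`). -/
def XB (a y k n : ℕ) : Prop :=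
  ∃ p : ℕ, p.Prime ∧ y < p ∧ p ∣ 24 * n + 3 - 2 ^ a ∧ ∃ w ∈ ws (k * 2 ^ a), p ∣ k * 2 ^ a - 3 * w ^ 2

/-- `n` is exceptional for `k`: third type. -/
def XC (a k n : ℕ) : Prop :=
  ∃ r ∈ rs (2 ^ a) n, 1 ≤ (n - tri r) / 2 ^ a ∧ k ∣ 24 * ((n - tri r) / 2 ^ a) - 1

/-- An even value on the left side. -/
def EvL (a k n : ℕ) : Prop :=
  ∃ r ∈ rs (2 ^ a) n, 1 ≤ (n - tri r) / 2 ^ a ∧ 24 ∣ k * (24 * ((n - tri r) / 2 ^ a) - 1) + 1 ∧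
    Even (Fintype.card (Nat.Partition ((k * (24 * ((n - tri r) / 2 ^ a) - 1) + 1) / 24)))

/-- An even value on the right side. -/
def EvR (a k n : ℕ) : Prop :=
  ∃ w ∈ ws (k * 2 ^ a), ∃ d ∈ (Nat.gcd (k * 2 ^ a - 3 * w ^ 2) (r0 a)).divisors,
    d ^ 2 ∣ (k * 2 ^ a - 3 * w ^ 2) * (24 * n + 3 - 2 ^ a) ∧
    24 ∣ (k * 2 ^ a - 3 * w ^ 2) * (24 * n + 3 - 2 ^ a) / d ^ 2 + 1 ∧
    Even (Fintype.card (Nat.Partition
      (((k * 2 ^ a - 3 * w ^ 2) * (24 * n + 3 - 2 ^ a) / d ^ 2 + 1) / 24)))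

/-- **LW2** (medium: copy of LOW in Pool/Agent/helper87/EP/LOW.lean; from TOT). As LOW, with the additional information that the
prime factors are larger than `sqrt X / 4`. Proof: the same (in LOW the primes are in `(y, 2y]`, `y = Nat.sqrt X / 2`). -/
def LW2_stmt : Prop := ∀ ε : ℝ, 0 < ε → ∃ X₀ : ℕ, ∀ X a e : ℕ, X₀ ≤ X → (X : ℝ) ^ ε ≤ 2 ^ a →
  16 * 4 ^ a ≤ X → e < 2 →
  (X : ℝ) ^ (1 - ε) ≤
    (Set.ncard {n : ℕ | n ≤ X ∧ SpY a (Nat.sqrt X / 4) n ∧ #(rs (2 ^ a) n) % 2 = e} : ℝ)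

/-- **LHK** (medium, 120 lines; uses JN). The left side of the identity. Put `M = 24n+3-2^a > 0`, `A = 2^a`.
Proof. For `u ∈ us a k M` let `M' = (M - 3u^2)/A` (exact). `M' < 0`: by JN the term vanishes unless `M' = -k`, i.e. `3u^2 + A = 24n+3+kA`,
excluded (XA). `M' = 0`: `JG ac k 0` is a sum of values `ac 0 = 0`. `M' > 0`, `M'` not `23 mod 24`: the divisors `d` of `k` are `1` and `k`;
`ac (k M') = 0` since `k M' = M' mod 24`; if `k ∣ M'` then `ac (M'/k) = 0` since `M' / k = M' mod 24`. `M' > 0`, `M' = 23 mod 24`, `M' = 24 m - 1`, `m ≥ 1`: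
`24 A m = M - 3 u^2 + A = 24 n + 3 - 3 u^2`, `u = 2r+1`, `3 u^2 = 24 tri r + 3`: `n - tri r = A m`, `r ∈ rs A n`; conversely every `r ∈ rs A n` gives such a `u`
with `m = (n - tri r)/A`, and `m ≥ 1` since `m = 0` means `24 n + 3 = 3 u^2`, excluded (XA). The sum over these `u` is the sum over `rs A n` (bijection
`r ↦ 2r+1`). `k` does not divide `24m-1` (not XC), so `JG ac k (24m-1) = ac (k (24m-1)) = pp ((k(24m-1)+1)/24)` (`k (24 m - 1) = 23 mod 24`). -/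
def LHK_stmt : Prop := ∀ a k n : ℕ, 3 ≤ a → k ∈ PK a → 2 ^ a < 24 * n + 3 → ¬ XA a k n → ¬ XC a k n →
  ∑ u ∈ us a k ((24 * n + 3 - 2 ^ a : ℕ) : ℤ),
      JG ac k ((((24 * n + 3 - 2 ^ a : ℕ) : ℤ) - 3 * (u : ℤ) ^ 2) / 2 ^ a) =
    ∑ r ∈ rs (2 ^ a) n, pp ((k * (24 * ((n - tri r) / 2 ^ a) - 1) + 1) / 24)

/-- **RHK** (medium, 90 lines). The right side of the identity. Proof. `M = 24n+3-2^a = r0 p₁ p₂`, `j = k 2^a - 3w^2 > 0`. Neither `p₁` nor `p₂` divides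
`j` (not XB), so `gcd(j, M) = gcd(j, r0)`; `j = 2^a - 3 mod 24`, `M = 3 - 2^a mod 24` and for `d ∣ gcd(j,M)`: `d` is prime to `6`, `d^2 = 1 mod 24`, so
`j M/d^2 = 23 mod 24` (as in Pool/Agent/helper41/EP/ID.lean; `ID_sq`, `ID_w`, `ID_A`). -/
def RHK_stmt : Prop := ∀ a y k n w : ℕ, 3 ≤ a → k ∈ PK a → 2 ^ a < 24 * n + 3 → SpY a y n → ¬ XB a y k n →
  w ∈ ws (k * 2 ^ a) →
  JG ac (k * 2 ^ a - 3 * w ^ 2) ((24 * n + 3 - 2 ^ a : ℕ) : ℤ) =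
      ∑ d ∈ (Nat.gcd (k * 2 ^ a - 3 * w ^ 2) (r0 a)).divisors,
        pp (((k * 2 ^ a - 3 * w ^ 2) * (24 * n + 3 - 2 ^ a) / d ^ 2 + 1) / 24) ∧
    ∀ d ∈ (Nat.gcd (k * 2 ^ a - 3 * w ^ 2) (r0 a)).divisors,
      d ^ 2 ∣ (k * 2 ^ a - 3 * w ^ 2) * (24 * n + 3 - 2 ^ a) ∧
        24 ∣ (k * 2 ^ a - 3 * w ^ 2) * (24 * n + 3 - 2 ^ a) / d ^ 2 + 1

/-- **EVB** (short, 50 lines; from IDK, LHK, RHK). Proof: if no value is even then all `pp` in LHK and RHK are `1`, the two sides of IDK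
(`k` prime `> 3`, so prime to `6`) are `#(rs (2^a) n)` and `kapk a k` in `ZMod 2`. (`k (24 m - 1) + 1` is divisible by `24` as `k = 1 mod 24`.) -/
def EVB_stmt : Prop := ∀ a y k n : ℕ, 3 ≤ a → k ∈ PK a → 2 ^ a < 24 * n + 3 → SpY a y n →
  ¬ XA a k n → ¬ XB a y k n → ¬ XC a k n → ((#(rs (2 ^ a) n) : ℕ) : ZMod 2) ≠ kapk a k →
  EvL a k n ∨ EvR a k n

/-- **XA1** (short, 50 lines). Proof: in both cases `u` determines `n`, and `3 u^2 ≤ 24 X + 3 + 2 * 4^a`, `u ≤ Nat.sqrt (8X + 1 + 4^a)`. -/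
def XA1_stmt : Prop := ∀ a k X : ℕ, k ∈ PK a →
  Set.ncard {n : ℕ | n ≤ X ∧ XA a k n} ≤ 2 * (Nat.sqrt (8 * X + 1 + 4 ^ a) + 1)

/-- **XB1** (medium, 80 lines). Proof: `w ∈ ws (k 2^a)` is odd and `3 w^2 < 2 * 4^a`, so `w < 2^a`: at most `2^a` values. For each `w` the number
`j = k 2^a - 3 w^2` satisfies `0 < j < 2 * 4^a`; it has at most two prime divisors `> y ≥ 2^a` (three would give `j > 8^a ≥ 2 * 4^a`). For each prime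
`p > y` the number of `n ≤ X` with `24n+3 > 2^a`, `p ∣ 24n+3-2^a` is at most `X/p + 1 ≤ X/y + 1` (one class mod `p`). -/
def XB1_stmt : Prop := ∀ a y k X : ℕ, 1 ≤ a → k ∈ PK a → 2 ^ a ≤ y →
  Set.ncard {n : ℕ | n ≤ X ∧ 2 ^ a < 24 * n + 3 ∧ XB a y k n} ≤ 2 * 2 ^ a * (X / y + 1)

/-- **XC1** (short, 60 lines). Proof: `n = tri r + 2^a m` with `r ≤ Nat.sqrt (2X)` (`r^2 ≤ 2 tri r`) and `1 ≤ m ≤ X/2^a`, `k ∣ 24m-1`: the number of `m` is at most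
`(X/2^a)/k + 1 ≤ X/4^a + 1` (one class mod `k`; `k > 2^a`, `Nat.div_div_eq_div_mul`). -/
def XC1_stmt : Prop := ∀ a k X : ℕ, k ∈ PK a →
  Set.ncard {n : ℕ | n ≤ X ∧ XC a k n} ≤ (Nat.sqrt (2 * X) + 1) * (X / 4 ^ a + 1)

/-- **LTY** (medium, 80 lines). The pairs with an even value on the left. Proof. `s' = (k (24m-1) + 1)/24`, `m = (n - tri r)/2^a ≤ X/2^a`, `k ≤ 2 * 2^a`: `s' ≤ k m ≤ 2X`.
`k ∣ 24 s' - 1`, `0 < 24 s' - 1 ≤ 48 X`: at most `D` values of `k` for each `s'`; `s'` and `k` determine `m`; `r ≤ Nat.sqrt (2X)`; `n = tri r + 2^a m`. -/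
def LTY_stmt : Prop := ∀ a X D : ℕ, (∀ m : ℕ, 0 < m → m ≤ 48 * X → m.divisors.card ≤ D) →
  Set.ncard {x : ℕ × ℕ | x.1 ∈ PK a ∧ x.2 ≤ X ∧ EvL a x.1 x.2} ≤
    D * (Nat.sqrt (2 * X) + 1) * sE (2 * X)

/-- **RTY** (medium, 120 lines; uses SQ). The pairs with an even value on the right. Proof. `s = (j M/d^2 + 1)/24`, `j = k 2^a - 3w^2 < 2 * 4^a`, `0 < M ≤ 24 X` (`M = 24n+3-2^a`,
`a ≥ 2`), so `24 s ≤ j M + 1 ≤ 48 * 4^a X`, `s ≤ 2 * 4^a X`. `d ∈ {1, r0 a}` (`r0 a` is prime), `M ∣ j M = d^2 (24 s - 1)`: for each `s` and `d` at most `D` values of `M`, hence of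
`n`, and then `j = d^2(24s-1)/M` is fixed. For fixed `j` the number of `k` is at most `4`: if `k 2^a - 3w^2 = k₀ 2^a - 3 w₀^2` then `2^a ∣ w^2 - w₀^2`, so `2^(a-1)`
divides `w - w₀` or `w + w₀` (SQ, second part, `a ≥ 3`), `w < 2^a = 2 * 2^(a-1)` (`3 w^2 < 2 * 4^a`): at most `2 + 2` values of `w`, and `w`, `j` determine `k`. Total
`≤ 2 * D * 4` for each `s`. -/
def RTY_stmt : Prop := ∀ a X D : ℕ, 3 ≤ a → (∀ m : ℕ, 0 < m → m ≤ 17328 * (4 ^ a * X) → m.divisors.card ≤ D) →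
  Set.ncard {x : ℕ × ℕ | x.1 ∈ PK a ∧ x.2 ≤ X ∧ 2 ^ a < 24 * x.2 + 3 ∧ EvR a x.1 x.2} ≤
    8 * D * sE (2 * 4 ^ a * X)

/-- **CNB** (medium, 100 lines; from EVB, XA1, XB1, XC1, LTY, RTY). The main inequality.
Proof. For each `k ∈ PK a` let `e ∈ {0,1}` be different from `kapk a k` (as an element of `ZMod 2`). The set of the hypothesis for this `e` has at least
`N` elements `n` (they satisfy `24 n + 3 > 2^a` by SpY); at most the sum of the three bounds XA1, XB1, XC1 of them are exceptional; all the others satisfy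
`EvL a k n` or `EvR a k n` (EVB). Sum over `k` and use LTY, RTY (finite sets: everything is bounded). -/
def CNB_stmt : Prop := ∀ a y X D N : ℕ, 3 ≤ a → 2 ^ a ≤ y →
  (∀ m : ℕ, 0 < m → m ≤ 17328 * (4 ^ a * X) → m.divisors.card ≤ D) →
  (∀ e : ℕ, e < 2 → N ≤ Set.ncard {n : ℕ | n ≤ X ∧ SpY a y n ∧ #(rs (2 ^ a) n) % 2 = e}) →
  #(PK a) * N ≤ #(PK a) * (2 * (Nat.sqrt (8 * X + 1 + 4 ^ a) + 1) + 2 * 2 ^ a * (X / y + 1) +
      (Nat.sqrt (2 * X) + 1) * (X / 4 ^ a + 1)) +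
    D * (Nat.sqrt (2 * X) + 1) * sE (2 * X) + 8 * D * sE (2 * 4 ^ a * X)

/-- **FNB** (long, 200 lines; from LW2, CNB, RESA). The theorem.
Proof. We may assume `ε ≤ 1/100`. Case 1: `Z ≥ X^(2 - ε)`. By RESA `sE Z ≥ Z^(3/4 - ε/4)` for large `Z`, and `X ≤ Z^(1/(2-ε))`, so
`(X Z)^(1/2-ε) ≤ Z^((1 + 1/(2-ε)) (1/2-ε)) ≤ Z^(3/4 - ε/4)` (`1/(2-ε) ≤ 1/2 + ε/2`, `(3/2 + ε/2)(1/2 - ε) ≤ 3/4 - 5ε/4`).
Case 2: `X^(3/2+ε) ≤ Z < X^(2-ε)`. Put `X' = X/2` (natural division), `a` the largest integer with `2 * 4^a * X' ≤ Z`, so `4^a ≤ Z/(2X') ≤ 4^(a+1)`: `4^a` is between `Z/(8X)`... and `2Z/X`,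
so `X^(1/2+ε)/16 ≤ 4^a ≤ 2 X^(1-ε)`. `ε₁ = ε/100`. For large `X`: `16 * 4^a ≤ X'`, `X'^ε₁ ≤ 2^a`. LW2 (`ε₁`, `X'`) gives `N ≥ X'^(1-ε₁) - 1` for both `e`, `y = Nat.sqrt X' / 4 ≥ 2^a`, `y ≥ √X/10`.
The bracket of CNB is at most `C (√X + 2^a √X + √X X/4^a) ≤ C' X^(1-ε/2) ≤ N/2`. `#(PK a) ≥ 2^a X^(-ε₁)` (`primes_ap_unif 24` or `primes_ap 24 1`, Pool/Agent/helper29/OC/PIAP.lean).
`D ≤ X^(ε₁)` (`card_divisors_le`, Pool/Agent/helper47/RA/Num.lean, with a small exponent; the numbers are at most `X^4`). So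
`2^a X^(-ε₁) X^(1-ε₁)/8 ≤ D (Nat.sqrt (2X')+1) sE (2X') + 8 D sE (2 4^a X')`, and `2X' ≤ X`, `2 4^a X' ≤ Z`. If both alternatives fail the right side is at most
`X^(ε₁) (3 √X Z^(1/2-ε) + 8 (XZ)^(1/2-ε)) ≤ 11 X^(ε₁) (X Z)^(1/2) Z^(-ε) ...`: indeed `√X Z^(1/2-ε) = (XZ)^(1/2) Z^(-ε)` and `(XZ)^(1/2-ε) ≤ (XZ)^(1/2) Z^(-ε)`, while the left side
is at least `c (Z/X)^(1/2) X^(1-2ε₁) = c (XZ)^(1/2) X^(-2ε₁)`: contradiction for large `X` as `Z^(-ε) ≤ X^(-3ε/2)`. -/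
def RESB2_stmt : Prop := ∀ ε : ℝ, 0 < ε → ∃ X₀ : ℕ, ∀ X Z : ℕ, X₀ ≤ X → (X : ℝ) ^ (3 / 2 + ε) ≤ Z →
  (Z : ℝ) ^ (1 / 2 - ε) ≤ sE X ∨ ((X : ℝ) * Z) ^ (1 / 2 - ε) ≤ sE Z

end Pool.Agent.EP
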