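import Pool.Agent.helper7.EP.AllL
import Pool.Agent.helper7.EP.AllA
import Pool.Agent.helper7.EP.SpecB
import Pool.Agent.helper67.EP.LW2
import Pool.Agent.helper89.EP.LHK
import Pool.Agent.helper49.EP.RHK
import Pool.Agent.helper65.EP.EVB
import Pool.Agent.helper24.EP.XA1
import Pool.Agent.helper85.EP.XB1
import Pool.Agent.helper93.EP.XC1
import Pool.Agent.helper92.EP.LTY
import Pool.Agent.helper11.EP.RTY
import Pool.Agent.helper65.EP.CNB
import Pool.Agent.helper51.EP.FNB

/-!
# Project ep:, assembly of part B2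
-/

set_option autoImplicit false

namespace Pool.Agent.EP

theorem all_LW2 : LW2_stmt := LW2 all_TOT
theorem all_LHK : LHK_stmt := LHK JN
theorem all_EVB : EVB_stmt := EVB all_IDK all_LHK RHK
theorem all_CNB : CNB_stmt := CNB all_EVB XA1 XB1 XC1 LTY (RTY SQ)
theorem all_RESB2 : RESB2_stmt := FNB all_LW2 all_CNB all_RESA

end Pool.Agent.EP
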