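import Pool.Agent.helper7.EP.AllH
import Pool.Agent.helper7.EP.SpecL
import Pool.Agent.helper89.EP.SQ
import Pool.Agent.helper84.EP.FP
import Pool.Agent.helper2.EP.RT
import Pool.Agent.helper82.EP.BIL
import Pool.Agent.helper2.EP.GEO1
import Pool.Agent.helper89.EP.GEO2
import Pool.Agent.helper65.EP.WIN
import Pool.Agent.helper2.EP.BAD
import Pool.Agent.helper30.EP.TOT
import Pool.Agent.helper87.EP.LOW
import Pool.Agent.helper22.EP.SPK
import Pool.Agent.helper9.EP.EXC
import Pool.Agent.helper20.EP.FIN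

/-!
# Project ep:, assembly of Theorem B
-/

set_option autoImplicit false

namespace Pool.Agent.EP

theorem all_IDL : IDL_stmt := all_ID
theorem all_WIN : WIN_stmt := WIN (FP SQ) (RT SQ) BIL GEO1
theorem all_TOT : TOT_stmt := TOT all_WIN (BAD GEO2)
theorem all_LOW : LOW_stmt := LOW all_TOT
theorem all_EXC : EXC_stmt := EXC all_IDL SPK
theorem all_RES : RES_stmt := FIN all_LOW all_EXC

end Pool.Agent.EP
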