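import Mathlib
import Pool.Agent.helper81.PMGauss
import Pool.Agent.helper12.PE.Err

/-!
# Project ep: (MP_ebc808_nt): a power saving for the even values of the partition function

Definitions. Paper proof: /team-store/helper7_EP_paper.md
-/

set_option autoImplicit false

open Finset PowerSeries
open scoped MatrixGroups Real

namespace Pool.Agent.EP

/-- `p(n)` modulo 2. -/
noncomputable def pp (n : ℕ) : ZMod 2 := (Fintype.card (Nat.Partition n) : ZMod 2)

/-- The number of `n ≤ X` with `p(n)` even. -/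
noncomputable def sE (X : ℕ) : ℕ :=
  #{n ∈ range (X + 1) | Even (Fintype.card (Nat.Partition n))}

/-- The odd numbers `w` with `3 w^2 < A`. -/
def ws (A : ℕ) : Finset ℕ := {w ∈ range A | w % 2 = 1 ∧ 3 * w ^ 2 < A}

/-- Triangular numbers. -/
def tri (r : ℕ) : ℕ := r * (r + 1) / 2

/-- The `r` with `tri r ≤ n`, `A ∣ n - tri r`. -/
def rs (A n : ℕ) : Finset ℕ := {r ∈ range (n + 1) | tri r ≤ n ∧ A ∣ n - tri r}

/-! ### Laurent series in `x`, `x^3 = q` -/

/-- Laurent series over the field with two elements. -/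
abbrev KK := LaurentSeries (ZMod 2)

/-- The coefficients of `eta^(-8)` modulo 2. -/
noncomputable def ac (M : ℤ) : ZMod 2 :=
  if M % 24 = 23 ∧ -1 ≤ M then pp ((M + 1) / 24).toNat else 0

/-- `eta^(-8)` modulo 2: the series `x^(-1) P(x^24)`. -/
noncomputable def ww : KK :=
  HahnSeries.single (-1 : ℤ) (1 : ZMod 2) *
    HahnSeries.ofPowerSeries ℤ (ZMod 2) (PowerSeries.expand 24 (by norm_num) helper81.PP)

/-- Polynomials in `ww` without constant term. -/
noncomputable def WW : Submodule (ZMod 2) KK :=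
  Submodule.span (ZMod 2) {f | ∃ i : ℕ, 1 ≤ i ∧ f = ww ^ i}

/-- `g` is the image of `f` under the Hecke operator `T_l` modulo 2. -/
def IsT (l : ℕ) (f g : KK) : Prop :=
  ∀ M : ℤ, g.coeff M = f.coeff (l * M) + if (l : ℤ) ∣ M then f.coeff (M / l) else 0

/-- The coefficient at `x^M` of the image under `T_j` of the series with coefficients `a`. -/
noncomputable def JG (a : ℤ → ZMod 2) (j : ℕ) (M : ℤ) : ZMod 2 :=
  ∑ d ∈ j.divisors.filter (fun d : ℕ => (d : ℤ) ∣ M), a ((j : ℤ) * M / (d : ℤ) ^ 2)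

/-! ### The modular form -/

/-- The form `eta^(8lm) T_l(eta^(-8m))`, multiplied by `l^(4m+1)`. -/
noncomputable def Hf (l m : ℕ) (z : ℂ) : ℂ :=
  (l : ℂ) ^ (4 * m) * ∑ b ∈ range l,
      (ModularForm.eta z ^ (8 * l) / ModularForm.eta ((z + 24 * (b : ℂ)) / l) ^ 8) ^ m
    + (ModularForm.eta z ^ (8 * l) / ModularForm.eta (l * z) ^ 8) ^ m

/-- The generating function of the partition numbers over the integers. -/
noncomputable def PPZ : ℤ⟦X⟧ := PowerSeries.mk fun n => (Fintype.card (Nat.Partition n) : ℤ)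

/-- The coefficients of `E^(-8m)`. -/
noncomputable def cm (m n : ℕ) : ℤ := PowerSeries.coeff n (PPZ ^ (8 * m))

/-- The shift `m (l^2-1)/3`. -/
def nn (l m : ℕ) : ℕ := m * ((l ^ 2 - 1) / 3)

/-- First part. -/
noncomputable def UU (l m : ℕ) : ℤ⟦X⟧ :=
  PowerSeries.mk fun n => if nn l m ≤ l * n then cm m (l * n - nn l m) else 0

/-- Second part. -/
noncomputable def VV (l m : ℕ) : ℤ⟦X⟧ :=
  PowerSeries.mk fun n => if l ∣ n then cm m (n / l) else 0

/-- The `q`-expansion of `Hf l m`. -/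
noncomputable def HH (l m : ℕ) : ℤ⟦X⟧ :=
  pentagonalSeries ℤ ^ (8 * l * m) * (PowerSeries.C ((l : ℤ) ^ (4 * m + 1)) * UU l m + VV l m)

/-! ### Special numbers -/

/-- The auxiliary prime. -/
def r0 (a : ℕ) : ℕ := if a % 2 = 1 then 19 else 11

/-- `n` is special for `A = 2^a`. -/
def Sp (a n : ℕ) : Prop :=
  ∃ p₁ p₂ : ℕ, p₁.Prime ∧ p₂.Prime ∧ 2 ^ a < p₁ ∧ 2 ^ a < p₂ ∧
    24 * n + 3 = r0 a * p₁ * p₂ + 2 ^ a

/-- The constant value of the right hand side of the identity on special numbers. -/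
noncomputable def kap (a : ℕ) : ZMod 2 :=
  ∑ w ∈ ws (2 ^ a), (((Nat.gcd (2 ^ a - 3 * w ^ 2) (r0 a)).divisors.card : ℕ) : ZMod 2)

/-- The base value `[sqrt((r0 y1 y2 + A)/3)]`. -/
def Rb (a y₁ y₂ : ℕ) : ℕ := Nat.sqrt ((r0 a * y₁ * y₂ + 2 ^ a) / 3)

/-- The primes `≡ c mod 24` in `[y, y + t)`. -/
def Wd (c y t : ℕ) : Finset ℕ := {p ∈ Ico y (y + t) | p.Prime ∧ p % 24 = c}

end Pool.Agent.EP
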