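import Pool.Agent.helper7.EP.Defs
import Pool.Agent.helper12.PE.Integral

/-!
# Project ep:, part H (the Hecke identity)

Everything is for `A = 2^a`. Complete proofs in the docstrings. Paper proof: /team-store/helper7_EP_paper.md
-/

set_option autoImplicit false

open Finset PowerSeries UpperHalfPlane ModularForm
open scoped MatrixGroups Real

noncomputable section

namespace Pool.Agent.EP

/-- **ETT** (short). `eta(z+n)^8 = e^(2 pi i n/3) eta(z)^8` for all integers `n` and all `z`.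
Proof: by definition `eta z = qParam 24 z * prod (1 - (qParam 1 z)^(n+1))`; `qParam 1 (z+n) = qParam 1 z`
(exponential of `2 pi i (z+n)`), `qParam 24 (z+n) = exp(2 pi i n/24) * qParam 24 z`; eighth power. -/
def ETT_stmt : Prop := ∀ (n : ℤ) (z : ℂ),
  ModularForm.eta (z + n) ^ 8 = Complex.exp (2 * π * Complex.I * n / 3) * ModularForm.eta z ^ 8

/-- **ETA** (medium, 120 lines). For integers with `α δ - β γ = 1` and `3 ∣ α`, `3 ∣ δ`:
`eta((α z+β)/(γ z+δ))^8 = (γ z+δ)^4 eta(z)^8`.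
Proof. Let `f : ℍ → ℂ`, `f τ = eta τ ^ 8`. `f ∣[(4:ℤ)] S = f`: Mathlib `ModularForm.eta_comp_eq_csqrt_I_inv` gives
`eta(-1/z) = (sqrt I)⁻¹ (sqrt z) eta z`; `sqrt I ^ 8 = I^4 = 1`, `sqrt z ^ 8 = z^4` (compare `csqrt_pow_24_eq` and
`discriminant_S_invariant` in Mathlib NumberTheory/ModularForms/Discriminant.lean). `f ∣[(4:ℤ)] T = ζ • f`,
`ζ = exp(2 pi i/3)` (as ETT). For a matrix with entries `a b c d` put
`ψ = (a+d) c - b d (c^2-1)` in `ZMod 3`. For all `a b c d` in `ZMod 3` with `a d - b c = 1` (decide): multiplying on the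
right by `S = (0,-1;1,0)` does not change `ψ`, multiplying on the right by `T = (1,1;0,1)` adds `1`. So by induction
on the closure of `{S, T}` (`ModularGroup` / `SpecialLinearGroup.SL2Z_generators`, `Subgroup.closure_induction_right`
or the like; see how `SlashInvariantForm.slash_action_generators_SL2Z` is proved) every `g` satisfies
`f ∣[(4:ℤ)] g = ζ ^ (ψ g).val • f` (`ζ^3 = 1`). If `3 ∣ a` and `3 ∣ d` then `ψ g = 0`. Unfold the slash action as in
`ext_mobius` of Pool/Agent/helper12/PE/Hecke.lean. -/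
def ETA_stmt : Prop := ∀ α β γ δ : ℤ, α * δ - β * γ = 1 → (3 : ℤ) ∣ α → (3 : ℤ) ∣ δ →
  ∀ z : ℂ, 0 < z.im →
    ModularForm.eta ((α * z + β) / (γ * z + δ)) ^ 8 = (γ * z + δ) ^ 4 * ModularForm.eta z ^ 8

/-- **HT** (medium, 80 lines). `Hf l m (z+1) = Hf l m z`.
Proof. `eta(z+1)^(8l) = ω^l eta(z)^(8l)`, `ω = exp(2 pi i/3)`, `ω^3 = 1` (ETT). Last term: `eta(l z + l)^8 = ω^l eta(lz)^8`:
the quotient does not change. Term `b`: let `b'` in `[0,l)` with `24 b' = 24 b + 1 mod l` (24 is invertible mod `l`;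
`b ↦ b'` is a bijection of `range l`, for instance `b' = (b + u) % l` with `24 u = 1 mod l`), `24 b + 1 = 24 b' + l t`.
`(z+1+24b)/l = (z+24b')/l + t`, so the eighth power of eta is multiplied by `ω^t`. `l t = 1 mod 24`, so `l t = 1 mod 3`,
`t = l mod 3` (as `l^2 = 1 mod 3`), `ω^l = ω^t`. So term `b` at `z+1` is term `b'` at `z`. -/
def HT_stmt : Prop := ∀ l m : ℕ, l.Prime → 5 ≤ l → ∀ z : ℂ, 0 < z.im → Hf l m (z + 1) = Hf l m z

/-- **HS** (medium, 120 lines; adapt `heckeC_S` in Pool/Agent/helper12/PE/Hecke.lean).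
`Hf l m (-1/z) = z^(4m(l-1)) Hf l m z`.
Proof. ETA with `(0,-1;1,0)`: `eta(-1/z)^8 = z^4 eta(z)^8`. Write `t_b(z)` for the term `b` of the sum, `t_inf` for the last term.
`t_inf(-1/z)`: `eta(-l/z)^8 = eta(-1/(z/l))^8 = (z/l)^4 eta(z/l)^8`, so `t_inf(-1/z) = z^(4m(l-1)) l^(4m) t_0(z)`.
`t_0(-1/z)`: `eta(-1/(lz))^8 = (lz)^4 eta(lz)^8`, so `l^(4m) t_0(-1/z) = z^(4m(l-1)) t_inf(z)`.
For `1 ≤ b < l` let `1 ≤ b' < l` with `576 b b' + 1 = l e` (`b ↦ b'` is an involution of `[1,l)`, as in `heckeC_S`, with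
`576` inserted: `b' = (-(576 b)⁻¹ : ZMod l).val`). `g = (24 b, -e; l, -24 b')` has determinant 1 and maps `x = (z+24b')/l` to
`(24 b z - 1)/(l z) = (-1/z + 24 b)/l`, with `l x - 24 b' = z`. ETA: `eta((-1/z+24b)/l)^8 = z^4 eta((z+24b')/l)^8`, so
`t_b(-1/z) = z^(4m(l-1)) t_b'(z)`. Sum over `b`. (`eta` does not vanish on the upper half plane: `ModularForm.eta_ne_zero`.) -/
def HS_stmt : Prop := ∀ l m : ℕ, l.Prime → 5 ≤ l → ∀ z : ℂ, 0 < z.im →
  Hf l m (-1 / z) = z ^ (4 * (m * (l - 1))) * Hf l m z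

/-- Evaluation of an integral power series at a complex number. -/
def Evq (φ : ℤ⟦X⟧) (q v : ℂ) : Prop :=
  HasSum (fun n : ℕ => ((PowerSeries.coeff n φ : ℤ) : ℂ) * q ^ n) v

/-- **EVM** (short, 50 lines). Products, powers, sums, constants.
Proof: in `ℂ` summable = absolutely summable; Cauchy product (`summable_norm_sum_mul_antidiagonal_of_summable_norm`,
`tsum_mul_tsum_eq_tsum_sum_antidiagonal_of_summable_norm`, `PowerSeries.coeff_mul`). -/
def EVM_stmt : Prop :=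
  (∀ (φ ψ : ℤ⟦X⟧) (q u v : ℂ), Evq φ q u → Evq ψ q v → Evq (φ * ψ) q (u * v)) ∧
  (∀ (φ : ℤ⟦X⟧) (q u : ℂ) (k : ℕ), Evq φ q u → Evq (φ ^ k) q (u ^ k)) ∧
  (∀ (φ ψ : ℤ⟦X⟧) (q u v : ℂ), Evq φ q u → Evq ψ q v → Evq (φ + ψ) q (u + v)) ∧
  (∀ (k : ℤ) (q : ℂ), Evq (PowerSeries.C k) q k)

/-- **EVE** (medium, 80 lines). For `|q| < 1`: `pentagonalSeries ℤ` evaluates to the Euler product and `PPZ` to its
inverse. Proof. `f(q) = prod' (1-q^(n+1))` is differentiable on the unit disc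
(`ModularForm.differentiableOn_tprod_one_sub_pow`) and its Taylor series is `pentagonalSeries ℂ` (`tay_euler` in
Pool/Agent/helper12/PE/QDelta.lean; `tay f` has coefficients `iteratedDeriv n f 0 / n!`); the Taylor series of a function
which is differentiable on the disc has the value of the function as sum (`Complex.hasSum_taylorSeries_on_ball` or
`DifferentiableOn.hasFPowerSeriesOnBall`); `map_pentagonalSeries`. `f` has no zero in the disc (a zero of the product would be a zero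
of a factor: as `ModularForm.eta_tprod_ne_zero`, i.e. `tprod_one_add_ne_zero_of_summable`; or use that lemma with
`q = qParam 1 z`, and `q = 0` directly). So `1/f` is differentiable on the disc, `tay (1/f) * tay f = tay 1 = 1` (`tay_mul`), and
`PPZ * pentagonalSeries ℤ = 1` over `ℤ` is proved as `PP_mul_EE` in Pool/Agent/helper81/PMGauss.lean (the same proof works
over `ℤ` with the discrete topology); so the Taylor series of `1/f` is `PPZ`. -/
def EVE_stmt : Prop := ∀ q : ℂ, ‖q‖ < 1 →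
  Evq (pentagonalSeries ℤ) q (∏' n : ℕ, (1 - q ^ (n + 1))) ∧
  (∏' n : ℕ, (1 - q ^ (n + 1))) ≠ 0 ∧
  Evq PPZ q (∏' n : ℕ, (1 - q ^ (n + 1)))⁻¹

/-- **HQ** (long, 150 lines; adapt `hasSum_heckeC` in Pool/Agent/helper12/PE/Hecke.lean). For `z` in the upper half plane
`Hf l m z` is the value of `HH l m` at `q = qParam 1 z`.
Proof. Put `y = exp(2 pi i z/(3l))`, `ξ = exp(2 pi i/l)`, `Π(q) = prod' (1-q^(n+1))`. `q = y^(3l)`,
`eta(z)^8 = y^l Π(q)^8` (`qParam 24 z ^ 8 = qParam 3 z`). For `x_b = (z+24b)/l`: `eta(x_b)^8 = y ξ^(8b) Π(q_b)^8`,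
`q_b = y^3 ξ^(24b)`. By EVE, EVM `Π(q_b)^(-8m) = sum_n cm m n q_b^n`. So term `b` is
`y^(l^2 m) Π(q)^(8lm) y^(-m) ξ^(-8bm) sum_n cm m n y^(3n) ξ^(24bn)`. Sum over `b < l`: `sum_b ξ^(8b(3n-m)) = l` if `l ∣ 3n-m`,
else `0` (8 is prime to `l`; `sum_root` in Hecke.lean, with the exponent `8(3n - m)` replaced by the natural number
`8 (3 n + m (l^2-1))`, which has the same class mod `l`). `3n + m(l^2-1) = 3(n + nn l m)` (`3 ∣ l^2-1`), so the condition is
`l ∣ n + nn l m`, say `n + nn l m = l n'`, and `y^(l^2 m - m + 3n) = y^(3 l n') = q^(n')`. Hence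
`sum_b t_b = Π(q)^(8lm) l sum_n' (UU l m)_n' q^n'`. Last term: `eta(lz)^8 = y^(l^2) Π(q^l)^8`, so it is
`Π(q)^(8lm) sum_n cm m n q^(l n) = Π(q)^(8lm) sum (VV l m)_n q^n`. Together:
`Hf l m z = Π(q)^(8lm) (l^(4m+1) UU(q) + VV(q))`, which is the value of `HH l m`. -/
def HQ_stmt : Prop := ∀ l m : ℕ, l.Prime → 5 ≤ l → ∀ z : ℂ, 0 < z.im →
  Evq (HH l m) (Function.Periodic.qParam 1 z) (Hf l m z)

/-- **HM** (medium, 100 lines; copy of `heckeFun_T`, `heckeFun_S`, `heckeForm`, `exists_hecke` in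
Pool/Agent/helper12/PE/Hecke.lean, from HT, HS, HQ). There is a modular form of level one and weight `4m(l-1)` whose
`q`-expansion is `HH l m`. Differentiability of `Hf` on the upper half plane:
`ModularForm.differentiableAt_eta_of_mem_upperHalfPlaneSet` and `eta_ne_zero`. -/
def HM_stmt : Prop := ∀ l m : ℕ, l.Prime → 5 ≤ l →
  ∃ F : ModularForm 𝒮ℒ ((4 * (m * (l - 1)) : ℕ) : ℤ),
    qExpansion 1 F = PowerSeries.map (Int.castRingHom ℂ) (HH l m)

/-- **INT4** (medium, 150 lines; generalization of `integral_form_mod_two` in Pool/Agent/helper12/PE/Integral.lean,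
same proof). Reduction mod 2 of an integral form of weight `4k` is a combination of `DD^i`, `3 i ≤ k`.
Proof: strong induction on `k`; `k = 0`: constant. `k ≥ 1`: `F - a_0 E_4^k` is a cusp form with integral expansion, hence
`Delta` times a form `H'` of weight `4k - 12 = 4(k-3)` with integral expansion; if `k ≥ 3` use induction
(the exponents go up by one), if `k = 1, 2` then the weight of `H'` is negative, so `H' = 0` (`ModularFormClass.levelOne_neg_weight_eq_zero`).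
`E_4 = 1 mod 2` (`map_eps`). -/
def INT4_stmt : Prop := ∀ (k : ℕ) (F : ModularForm 𝒮ℒ ((4 * k : ℕ) : ℤ)) (φ : ℤ⟦X⟧),
  qExpansion 1 F = PowerSeries.map (Int.castRingHom ℂ) φ →
  PowerSeries.map (Int.castRingHom (ZMod 2)) φ ∈
    Submodule.span (ZMod 2) (Set.range fun i : Fin (k / 3 + 1) => helper12.PE.DD ^ (i : ℕ))

/-- **CM2** (short, 40 lines). `cm m n` mod 2 is the coefficient of `PP^m` at `n/8` if `8 ∣ n`, else `0`.
Proof: `map (Int.castRingHom (ZMod 2)) PPZ = PP`; `PP^(8m) = (PP^m)^8 = expand 8 (PP^m)` (Frobenius;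
`pow_eq_expand` in Pool/Agent/helper12/PE/Err.lean three times or its proof), `PowerSeries.coeff_expand`. -/
def CM2_stmt : Prop := ∀ m n : ℕ, ((cm m n : ℤ) : ZMod 2) =
  if 8 ∣ n then PowerSeries.coeff (n / 8) (helper81.PP ^ m) else 0

/-- **WM** (medium, 80 lines). Coefficients of the powers of `ww`: `ww^m = x^(-m) (PP^m)(x^24)`; `ww` is invertible with
inverse `x E(x^24)`. -/
def WM_stmt : Prop :=
  (∀ (m : ℕ) (M : ℤ), (ww ^ m).coeff M =
    if (24 : ℤ) ∣ M + m ∧ 0 ≤ M + m then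
      PowerSeries.coeff ((M + m) / 24).toNat (helper81.PP ^ m) else 0) ∧
  ww * (HahnSeries.single (1 : ℤ) (1 : ZMod 2) *
    HahnSeries.ofPowerSeries ℤ (ZMod 2) (PowerSeries.expand 24 (by norm_num) helper81.EE)) = 1

/-- **TW1** (long, 180 lines; from HM, INT4, CM2, WM). For a prime `l ≥ 5` and `m ≥ 1` the image of `ww^m` under `T_l` is in `WW`.
Proof. By HM and INT4 (`k = m(l-1)`) `HH l m` mod 2 is `sum_i β_i DD^i`, `3 i ≤ m (l-1)` (`i ≤ k/3`). Let `φ` be the ring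
homomorphism from power series in `q` to `KK` with `q = x^3` (`expand 3`, then `ofPowerSeries`). Let `vv = ww⁻¹ =
x E(x^24)`. `φ(EE^8) = EE(x^24)` as `EE^8 = expand 8 EE`, so `x^(lm) φ(EE^(8lm)) = vv^(lm)` and `φ(DD) = x^3 EE(x^24)^3 = vv^3`
(`DD = X EE^24`). Let `G = x^(-lm) φ(UU + VV mod 2)`. As `l` is odd, `HH mod 2 = EE^(8lm) (UU + VV)`, so
`vv^(lm) G = x^(lm) φ(EE^(8lm)) x^(-lm) φ(UU+VV) = φ(HH) = sum β_i vv^(3i)`, and `G = sum β_i ww^(lm-3i)` with `lm - 3i ≥ m ≥ 1`: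
`G ∈ WW`. Finally `IsT l (ww^m) G`: the coefficient of `G` at `M` is the coefficient of `UU+VV` at `n'` if `M + lm = 3n'`, `n' ≥ 0`, else `0`.
By CM2 `cm m n = 1` only if `8 ∣ n`, and (WM) the coefficient of `ww^m` at `3n-m` is `cm m n` mod 2 for `n ≥ 0`, and the
coefficient of `ww^m` at `M'` is `0` if `M' + m` is negative or not divisible by `3`. `(ww^m).coeff (l M)`: `l M + m = l(3n' - lm) + m
= 3 (l n' - nn l m)` (`3 nn l m = m(l^2-1)`), this is the coefficient of `UU`. If `l ∣ M`: then `l ∣ 3n'`, `l ∣ n'`,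
`M/l + m = 3 n'/l`, this is the coefficient of `VV`; conversely `l ∣ n'` implies `l ∣ M`. If `M + lm` is not
divisible by `3` or is negative then `lM + m = l(M + lm) - m(l^2-1)` is not divisible by 3, resp. negative, and the same
for `M/l + m = (M+lm)/l`. -/
def TW1_stmt : Prop := ∀ l m : ℕ, l.Prime → 5 ≤ l → 1 ≤ m → ∃ g ∈ WW, IsT l (ww ^ m) g

/-- **TW** (short; from TW1). The Hecke operators `T_l` preserve `WW`. Proof: `Submodule.span_induction`. -/
def TW_stmt : Prop := ∀ l : ℕ, l.Prime → 5 ≤ l → ∀ f ∈ WW, ∃ g ∈ WW, IsT l f g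

/-- **JREC** (medium, 120 lines). The Hecke recursion mod 2, for every function `a : ℤ → ZMod 2` and all primes `l`, `j > 0`:
`(T_l T_j a)_M = (T_(lj) a)_M + [l ∣ j] (T_(j/l) a)_M`.
Proof. All four terms are sums of `φ(D) = a(l j M/D^2)` over sets of divisors `D` of `l j`:
`JG a j (l M)`: `D ∣ j`, `D ∣ l M` (value `a(j (lM)/D^2)`). `JG a j (M/l)` (if `l ∣ M`): `D = l d`, `d ∣ j`, `d ∣ M/l`, i.e. `l ∣ D`,
`D ∣ l j`, `D ∣ M` (value `a(j (M/l)/d^2) = a(l j M/D^2)`). `JG a (l j) M`: `D ∣ l j`, `D ∣ M`. `JG a (j/l) M` (if `l ∣ j`): `D = l d`,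
`d ∣ j/l`, `d ∣ M`, i.e. `l ∣ D`, `D ∣ j`, `D ∣ l M` (value `a((j/l) M/d^2) = a(l j M/D^2)`). For `D` not divisible by `l` the first and the
third set agree (`D ∣ lj` iff `D ∣ j`, `D ∣ lM` iff `D ∣ M`) and the others do not contain `D`; for `l ∣ D` the first set is the
fourth one and the second is the third one. All divisions are exact (`D ∣ j` or `D ∣ lj` with complementary conditions:
`D^2 ∣ l j M` in all cases). Signs are irrelevant mod 2. -/
def JREC_stmt : Prop := ∀ (a : ℤ → ZMod 2) (l j : ℕ) (M : ℤ), l.Prime → 0 < j →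
  JG a j (l * M) + (if (l : ℤ) ∣ M then JG a j (M / l) else 0) =
    JG a (l * j) M + (if l ∣ j then JG a (j / l) M else 0)

/-- **JW** (short, 50 lines; from TW, JREC, WM). For `j > 0` prime to `6` there is an element of `WW` with coefficients `JG ac j`.
Proof: strong induction on `j`. `j = 1`: `ww` (WM with `m = 1`: `ww.coeff M = ac M`; `JG ac 1 M = ac M`). `j > 1`: a prime `l ∣ j`
is `≥ 5`; `j = l j'`; `T_l` of the element for `j'` plus (if `l ∣ j'`) the element for `j'/l`, by JREC. -/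
def JW_stmt : Prop := ∀ j : ℕ, 0 < j → Nat.Coprime j 6 → ∃ f ∈ WW, ∀ M : ℤ, f.coeff M = JG ac j M

/-- **NEG** (medium, 60 lines; from WM). An element of `WW` without negative coefficients is zero.
Proof: an element of `WW` is `sum_{i in 1..m} c_i ww^i`; if it is not zero take the largest `i` with `c_i = 1`; by WM
`(ww^k).coeff (-i) = 0` for `k < i` and `= 1` for `k = i` (constant coefficient of `PP^i`), so the coefficient at
`-i < 0` is `1`. -/
def NEG_stmt : Prop := ∀ f ∈ WW, (∀ M : ℤ, M < 0 → f.coeff M = 0) → f = 0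

/-- **PA** (medium, 100 lines). The coefficient of `P(q)^A E(q)^3`, `A = 2^a`.
Proof: `PP^(2^a) = expand (2^a) PP`; `coeff k (EE^3) = 1` if `k = tri r` for some `r`, else `0` (`EE_cube_cg` in
Pool/Agent/helper81/PMGauss.lean; `tri` is strictly increasing on `r ≥ 0`... `tri 0 = 0, tri 1 = 1`); Cauchy product: the sum over
`r` with `tri r ≤ n` of the coefficient of `expand A PP` at `n - tri r`, which is `pp((n - tri r)/A)` if `A ∣ n - tri r`
and `0` else. -/
def PA_stmt : Prop := ∀ a n : ℕ,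
  PowerSeries.coeff n (helper81.PP ^ (2 ^ a) * helper81.EE ^ 3) =
    ∑ r ∈ rs (2 ^ a) n, pp ((n - tri r) / 2 ^ a)

/-- **WA** (medium, 60 lines; from PA, WM). The coefficients of `ww^(A-3)`.
Proof: with `vv = x E(x^24)`, `ww vv = 1` (WM): `ww^(A-3) = ww^A vv^3 = x^(3-A) (PP^A EE^3)(x^24)`. -/
def WA_stmt : Prop := ∀ a : ℕ, 3 ≤ a →
  (∀ n : ℕ, (ww ^ (2 ^ a - 3)).coeff (24 * (n : ℤ) + 3 - 2 ^ a) =
    ∑ r ∈ rs (2 ^ a) n, pp ((n - tri r) / 2 ^ a)) ∧
  (∀ M : ℤ, (¬ ∃ n : ℕ, M = 24 * (n : ℤ) + 3 - 2 ^ a) → (ww ^ (2 ^ a - 3)).coeff M = 0)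

/-- **JN** (medium, 60 lines). The negative part of the `j`-th series is `x^(-j)`.
Proof: `M < 0`, `d ∣ j`, `d ∣ M`: `j = d j'`, `M = -d M'`, `j M/d^2 = -j' M' < 0`; `ac` is zero below `-1` and `ac (-1) = pp 0 = 1`. So the
only term is `j' = M' = 1`, i.e. `d = j = -M`. -/
def JN_stmt : Prop := ∀ (j : ℕ) (M : ℤ), 0 < j → M < 0 →
  JG ac j M = if M = -(j : ℤ) then 1 else 0

/-- **ID** (long, 150 lines; from JW, NEG, WA, JN). The identity.
Proof. Let `A = 2^a`, `f₁ = ww^(A-3)`, `f₂ = sum_{w ∈ ws A} f_w`, `f_w` the element of JW for `j_w = A - 3w^2` (prime to `6`: `A` even,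
`w` odd, `A` not divisible by `3`). Both are in `WW`. Their coefficients at `M < 0` agree: if `M = 24n+3-A < 0` then in `rs A n` we have
`n - tri r < A`, so `A ∣ n - tri r` means `n = tri r`: the coefficient of `f₁` is `1` (`pp 0 = 1`) if `n` is triangular, else `0`; the
coefficient of `f₂` is (JN) the number of `w ∈ ws A` with `3w^2 = 24n+3`, i.e. `w^2 = 8n+1`, `w` odd: `1` if `n` is triangular
(`w = 2r+1`), else `0`. If `M` is not of this form then `f₁` has coefficient `0`, and `f₂` too (`3w^2 - A = 24 tri r + 3 - A`, `w = 2r+1`).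
By NEG `f₁ + f₂ = 0`, so `f₁ = f₂`. Compare the coefficients at `M = 24n+3-A > 0`: for `d ∣ j_w`, `d ∣ M` the number
`N = j_w M/d^2` is positive and `N = 23 mod 24`: `j_w = A - 3 mod 24` (`w^2 = 1 mod 8`), `M = 3 - A mod 24`, squares of numbers prime to
`6` are `1 mod 24`, `N d^2 = j_w M = -1 mod 24`. So `ac N = pp ((N+1)/24)`, and the `d` are the divisors of the gcd. -/
def ID_stmt : Prop := ∀ a n : ℕ, 3 ≤ a → 2 ^ a < 24 * n + 3 →
  ∑ r ∈ rs (2 ^ a) n, pp ((n - tri r) / 2 ^ a) =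
    ∑ w ∈ ws (2 ^ a), ∑ d ∈ (Nat.gcd (2 ^ a - 3 * w ^ 2) (24 * n + 3 - 2 ^ a)).divisors,
      pp (((2 ^ a - 3 * w ^ 2) * (24 * n + 3 - 2 ^ a) / d ^ 2 + 1) / 24)

end Pool.Agent.EP
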